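import Pool.Agent.Helper38.IS.Defs

/-!
# IS-06: one cycle dominates

`s` a permutation of the finite type `O`, `z : O → ℂ`, `le d = ‖z (s d) - z d‖`, `L = ∑ le`, `ar d = cr (z d) (z (s d))/2`.
* `iso_inv`: for an invariant set `S` (`d ∈ S ↔ s d ∈ S`): `iso_perm` for `z' d = if d ∈ S then z d else 0`.
* `main_cycle`: for `d` let `C d = univ.filter (s.SameCycle d ·)`, `ℓ d = ∑_{C d} le`.  Choose `d₀` with `ℓ d₀` maximal.  `4π ∑ ar = ∑_{cycles} 4π ∑_C ar ≤ ∑_{cycles} ℓ² = ∑_d le d * ℓ d ≤ ℓ d₀ * L`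
  (sum over the cycles: `Finset.sum_partition`/`sum_fiberwise` by the map `d ↦ C d`), so `(1 - ε) L² ≤ ℓ d₀ L`, `ℓ d₀ ≥ (1 - ε) L`.
  With `S` = complement of `C d₀` (invariant): `4π ∑_S ar ≤ (L - ℓ d₀)² ≤ ε² L²`, so `4π ∑_{C d₀} ar ≥ (1 - ε) L² - ε² L² ≥ (1 - 2ε) L² ≥ (1 - 2 ε) (ℓ d₀)²` (`ε ≤ 1/2`).
-/

namespace Pool.Agent.Helper38.IS

open Finset Real Pool.Agent.Helper98.LC Pool.Agent.Helper38.LC2

variable {O : Type} [Fintype O] [DecidableEq O]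

private theorem cr_zero_zero : cr 0 0 = 0 := by simp [cr]

theorem iso_inv (s : Equiv.Perm O) (z : O → ℂ) (S : Finset O) (hS : ∀ d, d ∈ S ↔ s d ∈ S) :
    4 * π * ((∑ d ∈ S, cr (z d) (z (s d))) / 2) ≤ (∑ d ∈ S, ‖z (s d) - z d‖) ^ 2 := by
  have h := iso_perm s (fun d => if d ∈ S then z d else 0)
  have h1 : ∑ d, cr (if d ∈ S then z d else 0) (if s d ∈ S then z (s d) else 0) =
      ∑ d ∈ S, cr (z d) (z (s d)) := by
    rw [← Finset.sum_filter_add_sum_filter_not univ (fun d => d ∈ S)]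
    rw [Finset.sum_eq_zero (s := univ.filter (fun d => ¬ d ∈ S))]
    · rw [add_zero, Finset.filter_mem_eq_inter, Finset.univ_inter]
      refine Finset.sum_congr rfl fun d hd => ?_
      rw [if_pos hd, if_pos ((hS d).1 hd)]
    · intro d hd
      have hd' := (mem_filter.1 hd).2
      rw [if_neg hd', if_neg (fun h => hd' ((hS d).2 h)), cr_zero_zero]
  have h2 : ∑ d, ‖(if s d ∈ S then z (s d) else 0) - (if d ∈ S then z d else 0)‖ =
      ∑ d ∈ S, ‖z (s d) - z d‖ := by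
    rw [← Finset.sum_filter_add_sum_filter_not univ (fun d => d ∈ S)]
    rw [Finset.sum_eq_zero (s := univ.filter (fun d => ¬ d ∈ S))]
    · rw [add_zero, Finset.filter_mem_eq_inter, Finset.univ_inter]
      refine Finset.sum_congr rfl fun d hd => ?_
      rw [if_pos hd, if_pos ((hS d).1 hd)]
    · intro d hd
      have hd' := (mem_filter.1 hd).2
      rw [if_neg hd', if_neg (fun h => hd' ((hS d).2 h)), sub_zero, norm_zero]
  simp only [h1, h2] at h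
  exact h

theorem main_cycle (s : Equiv.Perm O) (z : O → ℂ) {ε : ℝ} (hε : 0 ≤ ε) (hε1 : ε ≤ 1 / 2)
    (hL : 0 < ∑ d, ‖z (s d) - z d‖)
    (h : (1 - ε) * (∑ d, ‖z (s d) - z d‖) ^ 2 ≤ 4 * π * ((∑ d, cr (z d) (z (s d))) / 2)) :
    ∃ d₀ : O, ∃ C : Finset O, (∀ d, d ∈ C ↔ s.SameCycle d₀ d) ∧
      (1 - ε) * ∑ d, ‖z (s d) - z d‖ ≤ ∑ d ∈ C, ‖z (s d) - z d‖ ∧
      (1 - 2 * ε) * (∑ d ∈ C, ‖z (s d) - z d‖) ^ 2 ≤
        4 * π * ((∑ d ∈ C, cr (z d) (z (s d))) / 2) := by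
  classical
  obtain ⟨C, hC⟩ : ∃ C : O → Finset O, ∀ d e, e ∈ C d ↔ s.SameCycle d e :=
    ⟨fun d => univ.filter (fun e => s.SameCycle d e), fun d e => by
      rw [mem_filter]; exact ⟨fun h => h.2, fun h => ⟨mem_univ _, h⟩⟩⟩
  have hne : (univ : Finset O).Nonempty := by
    by_contra hcon
    rw [Finset.not_nonempty_iff_eq_empty] at hcon
    rw [hcon, Finset.sum_empty] at hL
    exact lt_irrefl _ hL
  obtain ⟨d₀, -, hmax⟩ := Finset.exists_max_image univ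
    (fun d => ∑ e ∈ C d, ‖z (s e) - z e‖) hne
  have hCC : ∀ d e, C d = C e ↔ d ∈ C e := by
    intro d e
    constructor
    · intro h1
      rw [← h1, hC]
    · intro h1
      rw [hC] at h1
      ext x
      rw [hC, hC]
      exact ⟨fun h2 => h1.trans h2, fun h2 => h1.symm.trans h2⟩
  have hpart : ∀ f : O → ℝ, ∑ d, f d = ∑ c ∈ univ.image C, ∑ d ∈ c, f d := by
    intro f
    rw [← Finset.sum_fiberwise_of_maps_to (g := C) (t := univ.image C)
      (fun d _ => mem_image_of_mem C (mem_univ d))]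
    refine Finset.sum_congr rfl fun c hc => ?_
    obtain ⟨e, -, rfl⟩ := mem_image.1 hc
    apply Finset.sum_congr _ fun _ _ => rfl
    ext d
    rw [mem_filter, hCC]
    exact ⟨fun h => h.2, fun h => ⟨mem_univ _, h⟩⟩
  have hinv : ∀ d e, e ∈ C d ↔ s e ∈ C d := by
    intro d e
    rw [hC, hC, Equiv.Perm.sameCycle_apply_right]
  set L := ∑ d, ‖z (s d) - z d‖ with hLdef
  set l := ∑ e ∈ C d₀, ‖z (s e) - z e‖ with hldef
  have hl0 : 0 ≤ l := Finset.sum_nonneg fun _ _ => norm_nonneg _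
  have hlL : l ≤ L := Finset.sum_le_univ_sum_of_nonneg fun _ => norm_nonneg _
  -- the total area
  have h1 : 4 * π * ((∑ d, cr (z d) (z (s d))) / 2) ≤ l * L := by
    have e1 : 4 * π * ((∑ d, cr (z d) (z (s d))) / 2) =
        ∑ c ∈ univ.image C, 4 * π * ((∑ d ∈ c, cr (z d) (z (s d))) / 2) := by
      rw [hpart (fun d => cr (z d) (z (s d))), ← Finset.mul_sum, ← Finset.sum_div]
    have e2 : l * L = ∑ c ∈ univ.image C, l * ∑ d ∈ c, ‖z (s d) - z d‖ := by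
      rw [hLdef, hpart (fun d => ‖z (s d) - z d‖), Finset.mul_sum]
    rw [e1, e2]
    refine Finset.sum_le_sum fun c hc => ?_
    obtain ⟨e, -, rfl⟩ := mem_image.1 hc
    refine (iso_inv s z (C e) (hinv e)).trans ?_
    rw [sq]
    exact mul_le_mul_of_nonneg_right (hmax e (mem_univ e))
      (Finset.sum_nonneg fun _ _ => norm_nonneg _)
  have h2 : (1 - ε) * L ≤ l := by
    have h3 : (1 - ε) * L * L ≤ l * L := by
      calc (1 - ε) * L * L = (1 - ε) * L ^ 2 := by ring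
        _ ≤ _ := h
        _ ≤ _ := h1
    exact le_of_mul_le_mul_right h3 hL
  refine ⟨d₀, C d₀, hC d₀, h2, ?_⟩
  have h3 := iso_inv s z (C d₀)ᶜ (fun d => by
    rw [mem_compl, mem_compl, ← hinv])
  have h4 : ∑ d ∈ (C d₀)ᶜ, ‖z (s d) - z d‖ = L - l := by
    have := Finset.sum_add_sum_compl (C d₀) (fun d => ‖z (s d) - z d‖)
    rw [hLdef, hldef]
    linarith
  have h5 : ∑ d ∈ C d₀, cr (z d) (z (s d)) + ∑ d ∈ (C d₀)ᶜ, cr (z d) (z (s d)) =
      ∑ d, cr (z d) (z (s d)) := Finset.sum_add_sum_compl (C d₀) (fun d => cr (z d) (z (s d)))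
  rw [h4] at h3
  have h6 : (L - l) ^ 2 ≤ (ε * L) ^ 2 := by
    apply pow_le_pow_left₀ (by linarith)
    linarith
  have h7 : 4 * π * ((∑ d ∈ C d₀, cr (z d) (z (s d))) / 2) =
      4 * π * ((∑ d, cr (z d) (z (s d))) / 2) -
        4 * π * ((∑ d ∈ (C d₀)ᶜ, cr (z d) (z (s d))) / 2) := by
    rw [← h5]
    ring
  rw [h7]
  have h8 : (1 - 2 * ε) * l ^ 2 ≤ (1 - 2 * ε) * L ^ 2 :=
    mul_le_mul_of_nonneg_left (pow_le_pow_left₀ hl0 hlL 2) (by linarith)
  have h9 : ε ^ 2 * L ^ 2 ≤ ε * L ^ 2 := by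
    apply mul_le_mul_of_nonneg_right _ (sq_nonneg L)
    nlinarith
  nlinarith

end Pool.Agent.Helper38.IS
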