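import Pool.Agent.Helper38.IS.Defs

/-!
# IS-07: a cycle of a permutation as a path

`n` = the length of the cycle of `d₀` = `C.card` (`n ≥ 1`), `p k = z ((s ^ k) d₀)`.  Every sum over `C` is a sum over `range n` (see `poly_cycle` in `LC2/Poly.lean`; here `d₀` may be a fixed point:
then `C = {d₀}`, `n = 1`).  `(s ^ n) d₀ = d₀`.
Possible proof: `n = (s.cycleOf d₀).support.card` if `s d₀ ≠ d₀`; or `Equiv.Perm.IsCycleOn` for the set `C` (`Equiv.Perm.SameCycle`, `Equiv.Perm.isCycleOn_...`): `IsCycleOn.pow_card_apply`,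
`IsCycleOn.exists_pow_eq`, `IsCycleOn.pow_apply_eq_pow_apply`.
-/

namespace Pool.Agent.Helper38.IS

open Finset Real Pool.Agent.Helper98.LC Pool.Agent.Helper38.LC2

theorem perm_path {O : Type} [Fintype O] [DecidableEq O] (s : Equiv.Perm O) (d₀ : O) (C : Finset O)
    (hC : ∀ d, d ∈ C ↔ s.SameCycle d₀ d) :
    ∃ n : ℕ, 1 ≤ n ∧ (s ^ n) d₀ = d₀ ∧ (∀ d ∈ C, ∃ k, k < n ∧ (s ^ k) d₀ = d) ∧
      (∀ k, (s ^ k) d₀ ∈ C) ∧
      (∀ f : O → ℂ, ∑ d ∈ C, f d = ∑ k ∈ range n, f ((s ^ k) d₀)) ∧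
      ∀ f : O → ℝ, ∑ d ∈ C, f d = ∑ k ∈ range n, f ((s ^ k) d₀) := by
  have h0 : d₀ ∈ C := (hC d₀).2 (Equiv.Perm.SameCycle.refl s d₀)
  have hcyc : s.IsCycleOn (C : Set O) := by
    refine ⟨⟨?_, s.injective.injOn, ?_⟩, ?_⟩
    · intro d hd
      exact Finset.mem_coe.2 ((hC _).2 (((hC d).1 (Finset.mem_coe.1 hd)).apply_right))
    · intro d hd
      refine ⟨s.symm d, Finset.mem_coe.2 ((hC _).2 ?_), s.apply_symm_apply d⟩
      have h1 := (hC d).1 (Finset.mem_coe.1 hd)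
      exact Equiv.Perm.sameCycle_symm_apply_right.2 h1
    · intro a ha b hb
      exact ((hC a).1 (Finset.mem_coe.1 ha)).symm.trans ((hC b).1 (Finset.mem_coe.1 hb))
  have hex : ∀ d ∈ C, ∃ k, k < C.card ∧ (s ^ k) d₀ = d := fun d hd =>
    hcyc.exists_pow_eq h0 hd
  have hmem : ∀ k : ℕ, (s ^ k) d₀ ∈ C := fun k =>
    (hC _).2 ((Equiv.Perm.SameCycle.refl s d₀).pow_right)
  have himg : (range C.card).image (fun k => (s ^ k) d₀) = C := by
    apply Finset.Subset.antisymm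
    · intro d hd
      obtain ⟨k, _, rfl⟩ := Finset.mem_image.1 hd
      exact hmem k
    · intro d hd
      obtain ⟨k, hk, rfl⟩ := hex d hd
      exact Finset.mem_image.2 ⟨k, Finset.mem_range.2 hk, rfl⟩
  have hinj : Set.InjOn (fun k => (s ^ k) d₀) (range C.card : Set ℕ) := by
    apply Finset.injOn_of_card_image_eq
    rw [himg, Finset.card_range]
  have hsum : ∀ {M : Type} [AddCommMonoid M] (f : O → M),
      ∑ d ∈ C, f d = ∑ k ∈ range C.card, f ((s ^ k) d₀) := by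
    intro M _ f
    conv_lhs => rw [← himg]
    exact Finset.sum_image hinj
  exact ⟨C.card, Finset.card_pos.2 ⟨d₀, h0⟩, hcyc.pow_card_apply h0, hex, hmem, hsum, hsum⟩

end Pool.Agent.Helper38.IS
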