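import Pool.Agent.Helper38.IS.Path
import Pool.Agent.Helper38.IS.Cyc
import Pool.Agent.Helper38.IS.PermPath

/-!
# IS-08: stability of the isoperimetric inequality for systems of closed polygons

`ε'` from `path_stab δ`, `ε = min (1/10) (min (ε'/4) (δ/20))`.  `main_cycle`: `d₀`, `C`; `ℓ = ∑_C`, `(1 - ε) L ≤ ℓ ≤ L`; `R = ℓ/(2π)`.  `perm_path`: `p k = z ((s^k) d₀)`, `plen p n = ℓ`,
`parea p n = (∑_C cr)/2`, `‖p (k+1) - p k‖ ≤ ε L ≤ ε' ℓ`.  `z0` from `path_stab`.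
* `|L - 2πR| = L - ℓ ≤ ε L ≤ 2 ε ℓ = 4π ε R ≤ δ R`; the sum over the complement of `C` is `L - ℓ` as well; `∑_C - 2πR = 0`.
* `closed`: `∑_{k<n} (g (p (k+1)) - g (p k))` telescopes (`sum_range_sub`), `p n = p 0`.
* `near`: every `d ∈ C` is `(s^k) d₀` with `k < n`, `s d = (s^(k+1)) d₀`; `‖·‖ ≤ 2 R ≤ 4 R`.
-/

namespace Pool.Agent.Helper38.IS

open Finset Real Pool.Agent.Helper98.LC Pool.Agent.Helper38.LC2

theorem iso_stab (δ : ℝ) (hδ : 0 < δ) : ∃ ε > 0, ∀ (O : Type) [Fintype O] [DecidableEq O]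
    (s : Equiv.Perm O) (z : O → ℂ) (L : ℝ), L = ∑ d, ‖z (s d) - z d‖ → 0 < L →
    (∀ d, ‖z (s d) - z d‖ ≤ ε * L) →
    (1 - ε) * L ^ 2 ≤ 4 * π * ((∑ d, cr (z d) (z (s d))) / 2) →
    ∃ (O1 : Finset O) (z0 : ℂ) (R : ℝ), 0 < R ∧ |L - 2 * π * R| ≤ δ * R ∧
      (∀ g : ℂ → ℂ, ∑ d ∈ O1, (g (z (s d)) - g (z d)) = 0) ∧
      (∀ d ∈ O1, ‖z d - z0‖ ≤ 4 * R ∧ ‖z (s d) - z0‖ ≤ 4 * R) ∧
      ∑ d ∈ O1, ‖z (s d) - z d‖ *
        ‖RG.dirn (z (s d) - z d) - Complex.I * ((z d - z0) / (R : ℂ))‖ ^ 2 ≤ δ * R ∧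
      |∑ d ∈ O1, ‖z (s d) - z d‖ - 2 * π * R| ≤ δ * R ∧
      ∑ d ∈ univ \ O1, ‖z (s d) - z d‖ ≤ δ * R := by
  obtain ⟨ε', hε', hp⟩ := path_stab δ hδ
  obtain ⟨ε, hε0, hε1, hε2, hε3⟩ : ∃ ε : ℝ, 0 < ε ∧ ε ≤ 1 / 10 ∧ ε ≤ ε' / 4 ∧ ε ≤ δ / 20 :=
    ⟨min (1 / 10) (min (ε' / 4) (δ / 20)), by positivity, min_le_left _ _,
      (min_le_right _ _).trans (min_le_left _ _), (min_le_right _ _).trans (min_le_right _ _)⟩
  refine ⟨ε, hε0, ?_⟩
  intro O _ _ s z L hL hL0 hsmall hiso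
  obtain ⟨d₀, C, hC, hC1, hC2⟩ := main_cycle s z hε0.le (by linarith) (by rw [← hL]; exact hL0)
    (by rw [← hL]; exact hiso)
  obtain ⟨n, hn, hsn, hex, hmem, hsumC, hsumR⟩ := perm_path s d₀ C hC
  rw [← hL] at hC1
  set l : ℝ := ∑ d ∈ C, ‖z (s d) - z d‖ with hl
  have hstep : ∀ k : ℕ, s ((s ^ k) d₀) = (s ^ (k + 1)) d₀ := fun k => by
    rw [pow_succ', Equiv.Perm.mul_apply]
  set p : ℕ → ℂ := fun k => z ((s ^ k) d₀) with hpdef
  have hl2 : L ≤ 2 * l := by nlinarith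
  have hl0 : 0 < l := by linarith
  have hcompl : ∑ d ∈ univ \ C, ‖z (s d) - z d‖ = L - l := by
    have h1 := Finset.sum_sdiff (Finset.subset_univ C) (f := fun d => ‖z (s d) - z d‖)
    rw [hL, hl]
    linarith
  have hlL : l ≤ L := by
    have h1 : 0 ≤ ∑ d ∈ univ \ C, ‖z (s d) - z d‖ := Finset.sum_nonneg fun _ _ => norm_nonneg _
    rw [hcompl] at h1
    linarith
  have hπ := Real.pi_pos
  have hR0 : 0 < l / (2 * π) := by positivity
  have hRl : 2 * π * (l / (2 * π)) = l := by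
    field_simp
  have hdiff : L - l ≤ δ * (l / (2 * π)) := by
    have h1 : L - l ≤ ε * L := by linarith
    have h2 : ε * L ≤ ε * (2 * l) := mul_le_mul_of_nonneg_left hl2 hε0.le
    have h3 : ε * (2 * l) = 4 * π * ε * (l / (2 * π)) := by
      field_simp
      ring
    have h4 : 4 * π * ε ≤ δ := by
      have h5 := Real.pi_lt_four
      nlinarith
    have h6 : 4 * π * ε * (l / (2 * π)) ≤ δ * (l / (2 * π)) := mul_le_mul_of_nonneg_right h4 hR0.le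
    linarith
  obtain ⟨z0, hz1, hz2⟩ := hp p n l (by simp only [hpdef, hsn, pow_zero]; rfl)
    (by
      rw [hl, hsumR]
      unfold plen
      refine Finset.sum_congr rfl fun k _ => ?_
      rw [hstep]) hl0
    (fun k _ => by
      have h1 := hsmall ((s ^ k) d₀)
      rw [hstep] at h1
      refine h1.trans ?_
      calc ε * L ≤ ε * (2 * l) := mul_le_mul_of_nonneg_left hl2 hε0.le
        _ ≤ (ε' / 4) * (2 * l) := mul_le_mul_of_nonneg_right hε2 (by linarith)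
        _ ≤ ε' * l := by nlinarith)
    (by
      have h1 : parea p n = (∑ d ∈ C, cr (z d) (z (s d))) / 2 := by
        rw [hsumR]
        unfold parea
        congr 1
        refine Finset.sum_congr rfl fun k _ => ?_
        rw [hstep]
      rw [h1]
      refine le_trans ?_ hC2
      have h2 : 1 - ε' ≤ 1 - 2 * ε := by linarith
      exact mul_le_mul_of_nonneg_right h2 (sq_nonneg l))
  refine ⟨C, z0, l / (2 * π), hR0, ?_, ?_, ?_, ?_, ?_, ?_⟩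
  · rw [hRl, abs_of_nonneg (by linarith)]
    exact hdiff
  · intro g
    rw [hsumC]
    have h1 : ∀ k ∈ range n, g (z (s ((s ^ k) d₀))) - g (z ((s ^ k) d₀)) =
        g (z ((s ^ (k + 1)) d₀)) - g (z ((s ^ k) d₀)) := fun k _ => by rw [hstep]
    rw [Finset.sum_congr rfl h1, Finset.sum_range_sub (fun k => g (z ((s ^ k) d₀))) n, hsn, pow_zero]
    simp
  · intro d hd
    obtain ⟨k, hk, rfl⟩ := hex d hd
    have h1 := hz1 k hk.le
    have h2 := hz1 (k + 1) hk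
    rw [hstep]
    constructor
    · calc ‖z ((s ^ k) d₀) - z0‖ ≤ 2 * (l / (2 * π)) := h1
        _ ≤ 4 * (l / (2 * π)) := by linarith
    · calc ‖z ((s ^ (k + 1)) d₀) - z0‖ ≤ 2 * (l / (2 * π)) := h2
        _ ≤ 4 * (l / (2 * π)) := by linarith
  · rw [hsumR]
    refine le_trans (le_of_eq ?_) hz2
    refine Finset.sum_congr rfl fun k _ => ?_
    rw [hstep]
  · rw [hRl, sub_self, abs_zero]
    positivity
  · rw [hcompl]
    exact hdiff

end Pool.Agent.Helper38.IS
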