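import Pool.Agent.Helper38.LC2.Chain
import Pool.Agent.Helper98.LC.G.Iface
import Pool.Agent.Helper38.RG.Defs

/-!
# Stability of the isoperimetric inequality for polygons (MP_0e6ba8_gt, project LC3, block IS)

`p 0, …, p n = p 0` a closed polygon of length `L = plen p n`.
`An p L k = π plen p k / L` is the angle of the arc from `p 0` to `p k` of the circle of length `L` (inscribed angle).
For a circle `qq` is constant: `p k = p 0 + qq e^{iΦ} sin Φ`.
-/

namespace Pool.Agent.Helper38.IS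

open Finset Real Pool.Agent.Helper98.LC Pool.Agent.Helper38.LC2

/-- the angle -/
noncomputable def An (p : ℕ → ℂ) (L : ℝ) (k : ℕ) : ℝ := π * plen p k / L

/-- the angle of one side -/
noncomputable def an (p : ℕ → ℂ) (L : ℝ) (k : ℕ) : ℝ := π * ‖p (k + 1) - p k‖ / L

/-- `(p k - p 0) e^{-iΦ} / sin Φ` -/
noncomputable def qq (p : ℕ → ℂ) (L : ℝ) (k : ℕ) : ℂ :=
  (p k - p 0) * Complex.exp (-(Complex.I * (An p L k : ℂ))) / (Real.sin (An p L k) : ℂ)

/-- the slack of one step -/
noncomputable def sl (p : ℕ → ℂ) (L : ℝ) (k : ℕ) : ℝ :=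
  L / π * ‖p (k + 1) - p k‖ + ct (An p L k) * ‖p k - p 0‖ ^ 2 -
    ct (An p L (k + 1)) * ‖p (k + 1) - p 0‖ ^ 2 - 2 * cr (p k - p 0) (p (k + 1) - p k)

end Pool.Agent.Helper38.IS
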