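import Pool.Agent.Helper38.IS.Defs

/-!
# IS-01: identities for one step

`Φ' = Φ + φ`, `q = z e^{-iΦ} / sin Φ`, `q' = (z + w) e^{-iΦ'} / sin Φ'`.
`sin Φ' e^{iφ} - sin Φ = sin φ e^{iΦ'}` (write `sin` by exponentials), so
`sin Φ sin Φ' e^{iΦ'} (q' - q) = sin Φ (z + w) - sin Φ' e^{iφ} z = sin Φ w - sin φ e^{iΦ'} z`, and `z = q sin Φ e^{iΦ}`.
* `diff_q`: `w - sin φ e^{i(2Φ+φ)} q = sin Φ' e^{iΦ'} (q' - q)`.
* `slack_q`: the remainder in `ch_two` (see `LC2/Two.lean`): `ct Φ ‖z‖² + ct φ ‖w‖² - ct Φ' ‖z+w‖² - 2 cr z w = ‖sin φ e^{iΦ'} z - sin Φ w‖² / (sin Φ sin φ sin Φ')`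
  `= sin Φ sin Φ' ‖q' - q‖² / sin φ`; and `sin φ ≤ φ`.
-/

namespace Pool.Agent.Helper38.IS

open Finset Real Pool.Agent.Helper98.LC Pool.Agent.Helper38.LC2

/-- `sin Φ' e^{iφ} - sin Φ = sin φ e^{iΦ'}` -/
theorem step_id (Φ φ : ℝ) :
    (Real.sin (Φ + φ) : ℂ) * Complex.exp (Complex.I * (φ : ℂ)) - (Real.sin Φ : ℂ) =
      (Real.sin φ : ℂ) * Complex.exp (Complex.I * ((Φ + φ : ℝ) : ℂ)) := by
  have h := Real.sin_sub (Φ + φ) φ
  rw [add_sub_cancel_right] at h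
  rw [mul_comm Complex.I, mul_comm Complex.I, Complex.exp_mul_I, Complex.exp_mul_I,
    ← Complex.ofReal_cos, ← Complex.ofReal_sin, ← Complex.ofReal_cos, ← Complex.ofReal_sin, h]
  push_cast
  ring

/-- the remainder in `ch_two` -/
theorem slack_id {Φ φ : ℝ} (h0 : 0 < Φ) (h1 : 0 < φ) (h2 : Φ + φ < π) (z w : ℂ) :
    ct Φ * ‖z‖ ^ 2 + ct φ * ‖w‖ ^ 2 - ct (Φ + φ) * ‖z + w‖ ^ 2 - 2 * cr z w =
      ‖(Real.sin Φ : ℂ) * w -
        (Real.sin φ : ℂ) * (Complex.exp (Complex.I * ((Φ + φ : ℝ) : ℂ)) * z)‖ ^ 2 /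
      (Real.sin Φ * Real.sin φ * Real.sin (Φ + φ)) := by
  have hsa : 0 < Real.sin Φ := sin_pos_of_pos_of_lt_pi h0 (by linarith)
  have hsb : 0 < Real.sin φ := sin_pos_of_pos_of_lt_pi h1 (by linarith)
  have hs : 0 < Real.sin (Φ + φ) := sin_pos_of_pos_of_lt_pi (by linarith) h2
  have h3 : Real.cos Φ * Real.sin (Φ + φ) - Real.cos (Φ + φ) * Real.sin Φ = Real.sin φ := by
    have h := Real.sin_sub (Φ + φ) Φ
    rw [add_sub_cancel_left] at h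
    rw [h]
    ring
  have h4 : Real.cos φ * Real.sin (Φ + φ) - Real.cos (Φ + φ) * Real.sin φ = Real.sin Φ := by
    have h := Real.sin_sub (Φ + φ) φ
    rw [add_sub_cancel_right] at h
    rw [h]
    ring
  have h5 : Real.cos (Φ + φ) ^ 2 + Real.sin (Φ + φ) ^ 2 = 1 := Real.cos_sq_add_sin_sq _
  have hn : ∀ u : ℂ, ‖u‖ ^ 2 = u.re ^ 2 + u.im ^ 2 := by
    intro u
    rw [← Complex.normSq_eq_norm_sq, Complex.normSq_apply]
    ring
  rw [mul_comm Complex.I, Complex.exp_mul_I, ← Complex.ofReal_cos, ← Complex.ofReal_sin,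
    hn, hn, hn, hn]
  unfold ct cr
  simp only [Complex.sub_re, Complex.sub_im, Complex.mul_re, Complex.mul_im, Complex.add_re,
    Complex.add_im, Complex.ofReal_re, Complex.ofReal_im, Complex.I_re, Complex.I_im, zero_mul,
    mul_zero, mul_one, sub_zero, add_zero, zero_add]
  set sa := Real.sin Φ
  set sb := Real.sin φ
  set s := Real.sin (Φ + φ)
  set c := Real.cos (Φ + φ)
  set ca := Real.cos Φ
  set cb := Real.cos φ
  rw [eq_div_iff (by positivity)]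
  field_simp
  linear_combination sb * (z.re ^ 2 + z.im ^ 2) * h3 + sa * (w.re ^ 2 + w.im ^ 2) * h4 -
    sb ^ 2 * (z.re ^ 2 + z.im ^ 2) * h5

theorem diff_q {Φ φ : ℝ} (h0 : 0 < Real.sin Φ) (h1 : 0 < Real.sin (Φ + φ)) (z w : ℂ) :
    w - (Real.sin φ : ℂ) * Complex.exp (Complex.I * ((2 * Φ + φ : ℝ) : ℂ)) *
        (z * Complex.exp (-(Complex.I * (Φ : ℂ))) / (Real.sin Φ : ℂ)) =
      (Real.sin (Φ + φ) : ℂ) * Complex.exp (Complex.I * ((Φ + φ : ℝ) : ℂ)) *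
        ((z + w) * Complex.exp (-(Complex.I * ((Φ + φ : ℝ) : ℂ))) / (Real.sin (Φ + φ) : ℂ) -
          z * Complex.exp (-(Complex.I * (Φ : ℂ))) / (Real.sin Φ : ℂ)) := by
  have hS : (Real.sin Φ : ℂ) ≠ 0 := by exact_mod_cast h0.ne'
  have hS' : (Real.sin (Φ + φ) : ℂ) ≠ 0 := by exact_mod_cast h1.ne'
  have e1 : Complex.exp (Complex.I * ((Φ + φ : ℝ) : ℂ)) ≠ 0 := Complex.exp_ne_zero _
  have e2 : Complex.exp (-(Complex.I * ((Φ + φ : ℝ) : ℂ))) =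
      (Complex.exp (Complex.I * ((Φ + φ : ℝ) : ℂ)))⁻¹ := Complex.exp_neg _
  have e3 : Complex.exp (Complex.I * ((Φ + φ : ℝ) : ℂ)) * Complex.exp (-(Complex.I * (Φ : ℂ))) =
      Complex.exp (Complex.I * (φ : ℂ)) := by
    rw [← Complex.exp_add]
    congr 1
    push_cast
    ring
  have e4 : Complex.exp (Complex.I * ((2 * Φ + φ : ℝ) : ℂ)) *
      Complex.exp (-(Complex.I * (Φ : ℂ))) = Complex.exp (Complex.I * ((Φ + φ : ℝ) : ℂ)) := by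
    rw [← Complex.exp_add]
    congr 1
    push_cast
    ring
  have e5 := step_id Φ φ
  have l1 : w - (Real.sin φ : ℂ) * Complex.exp (Complex.I * ((2 * Φ + φ : ℝ) : ℂ)) *
        (z * Complex.exp (-(Complex.I * (Φ : ℂ))) / (Real.sin Φ : ℂ)) =
      w - (Real.sin φ : ℂ) * (Complex.exp (Complex.I * ((2 * Φ + φ : ℝ) : ℂ)) *
        Complex.exp (-(Complex.I * (Φ : ℂ)))) * z / (Real.sin Φ : ℂ) := by
    ring
  have l2 : (Real.sin (Φ + φ) : ℂ) * Complex.exp (Complex.I * ((Φ + φ : ℝ) : ℂ)) *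
        ((z + w) * Complex.exp (-(Complex.I * ((Φ + φ : ℝ) : ℂ))) / (Real.sin (Φ + φ) : ℂ) -
          z * Complex.exp (-(Complex.I * (Φ : ℂ))) / (Real.sin Φ : ℂ)) =
      ((Real.sin (Φ + φ) : ℂ) / (Real.sin (Φ + φ) : ℂ)) *
        (Complex.exp (Complex.I * ((Φ + φ : ℝ) : ℂ)) *
          Complex.exp (-(Complex.I * ((Φ + φ : ℝ) : ℂ)))) * (z + w) -
        (Real.sin (Φ + φ) : ℂ) * (Complex.exp (Complex.I * ((Φ + φ : ℝ) : ℂ)) *
          Complex.exp (-(Complex.I * (Φ : ℂ)))) * z / (Real.sin Φ : ℂ) := by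
    ring
  rw [l1, l2, e3, e4, e2, mul_inv_cancel₀ e1, div_self hS']
  field_simp
  linear_combination z * e5

theorem slack_q {Φ φ : ℝ} (h0 : 0 < Φ) (h1 : 0 < φ) (h2 : Φ + φ < π) (z w : ℂ) :
    Real.sin Φ * Real.sin (Φ + φ) *
        ‖(z + w) * Complex.exp (-(Complex.I * ((Φ + φ : ℝ) : ℂ))) / (Real.sin (Φ + φ) : ℂ) -
          z * Complex.exp (-(Complex.I * (Φ : ℂ))) / (Real.sin Φ : ℂ)‖ ^ 2 ≤
      φ * (ct Φ * ‖z‖ ^ 2 + ct φ * ‖w‖ ^ 2 - ct (Φ + φ) * ‖z + w‖ ^ 2 - 2 * cr z w) := by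
  have hS : 0 < Real.sin Φ := sin_pos_of_pos_of_lt_pi h0 (by linarith)
  have hs : 0 < Real.sin φ := sin_pos_of_pos_of_lt_pi h1 (by linarith)
  have hS' : 0 < Real.sin (Φ + φ) := sin_pos_of_pos_of_lt_pi (by linarith) h2
  have hle : Real.sin φ ≤ φ := Real.sin_le h1.le
  have hd := diff_q hS hS' z w
  have hn1 : ∀ t : ℝ, ‖Complex.exp (Complex.I * (t : ℂ))‖ = 1 := by
    intro t
    rw [mul_comm]
    exact Complex.norm_exp_ofReal_mul_I t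
  set q : ℂ := z * Complex.exp (-(Complex.I * (Φ : ℂ))) / (Real.sin Φ : ℂ) with hq
  set q' : ℂ := (z + w) * Complex.exp (-(Complex.I * ((Φ + φ : ℝ) : ℂ))) /
    (Real.sin (Φ + φ) : ℂ) with hq'
  have hSc : (Real.sin Φ : ℂ) ≠ 0 := by exact_mod_cast hS.ne'
  have e4 : Complex.exp (Complex.I * ((2 * Φ + φ : ℝ) : ℂ)) *
      Complex.exp (-(Complex.I * (Φ : ℂ))) = Complex.exp (Complex.I * ((Φ + φ : ℝ) : ℂ)) := by
    rw [← Complex.exp_add]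
    congr 1
    push_cast
    ring
  have hz : Complex.exp (Complex.I * ((2 * Φ + φ : ℝ) : ℂ)) * ((Real.sin Φ : ℂ) * q) =
      Complex.exp (Complex.I * ((Φ + φ : ℝ) : ℂ)) * z := by
    rw [← e4, hq]
    field_simp
  have hu : (Real.sin Φ : ℂ) * w -
      (Real.sin φ : ℂ) * (Complex.exp (Complex.I * ((Φ + φ : ℝ) : ℂ)) * z) =
      (Real.sin Φ : ℂ) * ((Real.sin (Φ + φ) : ℂ) *
        Complex.exp (Complex.I * ((Φ + φ : ℝ) : ℂ)) * (q' - q)) := by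
    rw [← hd, ← hz]
    ring
  have hnorm : ‖(Real.sin Φ : ℂ) * w -
      (Real.sin φ : ℂ) * (Complex.exp (Complex.I * ((Φ + φ : ℝ) : ℂ)) * z)‖ ^ 2 =
      Real.sin Φ ^ 2 * (Real.sin (Φ + φ) ^ 2 * ‖q' - q‖ ^ 2) := by
    rw [hu, norm_mul, norm_mul, norm_mul, hn1, Complex.norm_real, Complex.norm_real,
      Real.norm_of_nonneg hS.le, Real.norm_of_nonneg hS'.le]
    ring
  have hrem := slack_id h0 h1 h2 z w
  rw [hnorm] at hrem
  rw [hrem]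
  have h3 : Real.sin Φ ^ 2 * (Real.sin (Φ + φ) ^ 2 * ‖q' - q‖ ^ 2) /
      (Real.sin Φ * Real.sin φ * Real.sin (Φ + φ)) =
      Real.sin Φ * Real.sin (Φ + φ) * ‖q' - q‖ ^ 2 / Real.sin φ := by
    field_simp
  rw [h3, ← mul_div_assoc, le_div_iff₀ hs, mul_comm φ]
  exact mul_le_mul_of_nonneg_left hle (by positivity)

end Pool.Agent.Helper38.IS
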