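import Pool.Agent.Helper38.IS.Tang

/-!
# IS-05: stability of the isoperimetric inequality for one closed polygon

`E = L²/π - 4 parea ≤ ε L²/π`, `an k = π ‖v k‖/L ≤ π ε =: μ`.  Choose `0 < α ≤ 1/10` with `20 α ≤ δ/4`, and then `ε` with `π ε ≤ α`, `√ε ≤ α/100` and
`3π (90 ε/π + 2 π² ε²) * 4/α² * 2π ≤ δ/2`.
Let `a` be the least `k` with `An k ≥ α` (`An n = π`), `b` the largest `k ≤ n` with `An k ≤ π - α` (`An 0 = 0`); `An` is monotone, `An (k+1) ≤ An k + μ`, so `a ≤ b`,
`An a ≤ α + μ ≤ 2 α`, `An b ≥ π - 2 α`, and `sin (An k) ≥ sin α ≥ α/2 =: σ` for `a ≤ k ≤ b`.  `z0 = p 0 + i Q/2`, `Q = qq a`, `R = L/(2π)`.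
* `‖Q‖ = ‖p a - p 0‖/sin (An a) ≤ (L An a/π)/sin (An a) ≤ 1.2 L/π = 2.4 R` (`sin x ≥ x/1.2` for `x ≤ 1`), `‖Q/2‖ ≤ 1.2 R`.
* middle: `p k - z0 = -(i/2) Q e^{2iΦ} + (q - Q) sin Φ e^{iΦ}`, norm `≤ 1.2 R + √(π E)/σ ≤ 1.2 R + √ε L * 2/α ≤ 2 R` (`vari`).
* `k < a` or `k > b`: `‖p k - p 0‖ ≤ 2 α L/π = 4 α R` (`half_len`), so `‖p k - z0‖ ≤ 1.2 R + .4 R ≤ 2 R`.
* sum over `k < a` and over `k ≥ b`: `‖v‖ (1 + 2)²`: total `≤ 9 (plen p a + (L - plen p b)) ≤ 9 * 2 * 2 α L/π = 72 α R`... choose `α` with `72 α ≤ δ/2`.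
* sum over `Ico a b`: `mid_sum`.
-/

namespace Pool.Agent.Helper38.IS

open Finset Real Pool.Agent.Helper98.LC Pool.Agent.Helper38.LC2

private theorem dirn_le (v : ℂ) : ‖RG.dirn v‖ ≤ 1 := by
  unfold RG.dirn
  by_cases h : v = 0
  · simp [h]
  · rw [norm_div, Complex.norm_real, norm_norm, div_self (norm_ne_zero_iff.2 h)]

private theorem plen_mono (p : ℕ → ℂ) {j k : ℕ} (h : j ≤ k) : plen p j ≤ plen p k := by
  unfold plen
  exact Finset.sum_le_sum_of_subset_of_nonneg (Finset.range_subset_range.2 h)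
    fun _ _ _ => norm_nonneg _

private theorem An_mono (p : ℕ → ℂ) {L : ℝ} (hL : 0 < L) {j k : ℕ} (h : j ≤ k) :
    An p L j ≤ An p L k := by
  unfold An
  have := plen_mono p h
  have := Real.pi_pos
  gcongr

private theorem sin_lb {α x : ℝ} (h0 : 0 < α) (h1 : α ≤ 1 / 10) (h2 : α ≤ x) (h3 : x ≤ π - α) :
    α / 2 ≤ Real.sin x := by
  have hpi := Real.pi_gt_three
  have h4 : α / 2 ≤ Real.sin α := by
    have := Real.sin_gt_sub_cube h0
    have h5 : α ^ 3 ≤ α := by
      have : α ^ 2 ≤ 1 := by nlinarith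
      nlinarith
    linarith
  rcases le_total x (π / 2) with h | h
  · exact h4.trans (Real.sin_le_sin_of_le_of_le_pi_div_two (by linarith) h h2)
  · rw [← Real.sin_pi_sub x]
    exact h4.trans (Real.sin_le_sin_of_le_of_le_pi_div_two (by linarith) (by linarith)
      (by linarith))

/-- the position of a point in terms of `qq` -/
private theorem pos_eq (p : ℕ → ℂ) (L : ℝ) (k : ℕ) (Q : ℂ) (h : Real.sin (An p L k) ≠ 0) :
    p k - (p 0 + Complex.I * Q / 2) =
      (qq p L k - Q) * ((Real.sin (An p L k) : ℂ) * Complex.exp (Complex.I * (An p L k : ℂ))) -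
        Complex.I * Q / 2 * Complex.exp (2 * (Complex.I * (An p L k : ℂ))) := by
  set Φ := An p L k with hΦ
  have hs : (Real.sin Φ : ℂ) ≠ 0 := by exact_mod_cast h
  have h1 : p k - p 0 = qq p L k * ((Real.sin Φ : ℂ) * Complex.exp (Complex.I * (Φ : ℂ))) := by
    unfold qq
    rw [← hΦ]
    have h2 : Complex.exp (-(Complex.I * (Φ : ℂ))) * Complex.exp (Complex.I * (Φ : ℂ)) = 1 := by
      rw [← Complex.exp_add]
      simp
    field_simp
    linear_combination (-(p k - p 0)) * h2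
  have h3 : (Real.sin Φ : ℂ) * Complex.exp (Complex.I * (Φ : ℂ)) =
      -(Complex.I / 2) * (Complex.exp (2 * (Complex.I * (Φ : ℂ))) - 1) := by
    rw [Complex.ofReal_sin, Complex.sin]
    have e1 : Complex.exp (2 * (Complex.I * (Φ : ℂ))) =
        Complex.exp (Complex.I * (Φ : ℂ)) * Complex.exp (Complex.I * (Φ : ℂ)) := by
      rw [← Complex.exp_add]
      congr 1
      ring
    have e2 : Complex.exp (-(Φ : ℂ) * Complex.I) * Complex.exp (Complex.I * (Φ : ℂ)) = 1 := by
      rw [← Complex.exp_add]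
      have : -(Φ : ℂ) * Complex.I + Complex.I * (Φ : ℂ) = 0 := by ring
      rw [this, Complex.exp_zero]
    have e3 : Complex.exp ((Φ : ℂ) * Complex.I) = Complex.exp (Complex.I * (Φ : ℂ)) := by
      rw [mul_comm]
    rw [e1, e3]
    linear_combination (Complex.I / 2) * e2
  have h4 : p k - (p 0 + Complex.I * Q / 2) = (p k - p 0) - Complex.I * Q / 2 := by ring
  rw [h4, h1, h3]
  ring

private theorem norm_exp_I (x : ℝ) : ‖Complex.exp (Complex.I * (x : ℂ))‖ = 1 := by
  rw [mul_comm]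
  exact Complex.norm_exp_ofReal_mul_I x

private theorem norm_exp_2I (x : ℝ) : ‖Complex.exp (2 * (Complex.I * (x : ℂ)))‖ = 1 := by
  have : 2 * (Complex.I * (x : ℂ)) = ((2 * x : ℝ) : ℂ) * Complex.I := by
    push_cast
    ring
  rw [this]
  exact Complex.norm_exp_ofReal_mul_I _

private theorem norm_exp_negI (x : ℝ) : ‖Complex.exp (-(Complex.I * (x : ℂ)))‖ = 1 := by
  have : -(Complex.I * (x : ℂ)) = ((-x : ℝ) : ℂ) * Complex.I := by
    push_cast
    ring
  rw [this]
  exact Complex.norm_exp_ofReal_mul_I _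

theorem path_stab (δ : ℝ) (hδ : 0 < δ) : ∃ ε > 0, ∀ (p : ℕ → ℂ) (n : ℕ) (L : ℝ), p n = p 0 →
    plen p n = L → 0 < L → (∀ k, k < n → ‖p (k + 1) - p k‖ ≤ ε * L) →
    (1 - ε) * L ^ 2 ≤ 4 * π * parea p n →
    ∃ z0 : ℂ, (∀ k, k ≤ n → ‖p k - z0‖ ≤ 2 * (L / (2 * π))) ∧
      ∑ k ∈ range n, ‖p (k + 1) - p k‖ * ‖RG.dirn (p (k + 1) - p k) -
        Complex.I * ((p k - z0) / ((L / (2 * π) : ℝ) : ℂ))‖ ^ 2 ≤ δ * (L / (2 * π)) := by
  have hpi := Real.pi_gt_d6
  have hpi2 := Real.pi_lt_d6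
  have hpi0 := Real.pi_pos
  -- the constants
  obtain ⟨α, hα0, hα1, hα2⟩ : ∃ α : ℝ, 0 < α ∧ α ≤ 1 / 10 ∧ 144 * α ≤ δ :=
    ⟨min (1 / 10) (δ / 144), lt_min (by norm_num) (by positivity), min_le_left _ _, by
      have := min_le_right (1 / 10) (δ / 144)
      linarith⟩
  obtain ⟨ε, hε0, hε1, hε2⟩ : ∃ ε : ℝ, 0 < ε ∧ 24000 * ε ≤ α ^ 2 ∧ 24000 * ε ≤ δ * α ^ 2 := by
    refine ⟨min 1 δ * α ^ 2 / 24000, by have := lt_min one_pos hδ; positivity, ?_, ?_⟩
    · have h := min_le_left 1 δ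
      have : min 1 δ * α ^ 2 ≤ 1 * α ^ 2 := mul_le_mul_of_nonneg_right h (sq_nonneg _)
      linarith
    · have h := min_le_right 1 δ
      have : min 1 δ * α ^ 2 ≤ δ * α ^ 2 := mul_le_mul_of_nonneg_right h (sq_nonneg _)
      linarith
  have hαα : α ^ 2 ≤ α / 10 := by nlinarith
  have hεα : 10000 * ε ≤ α := by linarith
  refine ⟨ε, hε0, ?_⟩
  intro p n L hn hLn hL hv hare
  -- the angles
  set E := L ^ 2 / π - 4 * parea p n with hE
  have hEle : π * E ≤ ε * L ^ 2 := by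
    have : π * E = L ^ 2 - 4 * π * parea p n := by
      rw [hE]
      field_simp
    rw [this]
    linarith
  have han : ∀ j, j < n → an p L j ≤ π * ε := by
    intro j hj
    unfold an
    rw [div_le_iff₀ hL]
    have := mul_le_mul_of_nonneg_left (hv j hj) hpi0.le
    linarith
  have hAnn : An p L n = π := by
    unfold An
    rw [hLn]
    field_simp
  have hAn0 : An p L 0 = 0 := by
    unfold An plen
    simp
  have hplen : ∀ k, plen p k = L * An p L k / π := by
    intro k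
    unfold An
    field_simp
  have hμ : π * ε ≤ α := by nlinarith
  -- the index `a`
  have hexa : ∃ k, α ≤ An p L k := ⟨n, by rw [hAnn]; linarith⟩
  classical
  obtain ⟨a, haα, hamin⟩ : ∃ a, α ≤ An p L a ∧ ∀ j, j < a → An p L j < α :=
    ⟨Nat.find hexa, Nat.find_spec hexa, fun j hj => not_le.1 (Nat.find_min hexa hj)⟩
  have han' : a ≤ n := by
    by_contra hcon
    have := hamin n (by omega)
    rw [hAnn] at this
    linarith
  have ha0 : 0 < a := by
    rcases Nat.eq_zero_or_pos a with h | h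
    · rw [h, hAn0] at haα
      linarith
    · exact h
  have ha2 : An p L a ≤ 2 * α := by
    obtain ⟨a', rfl⟩ : ∃ a', a = a' + 1 := ⟨a - 1, by omega⟩
    have h1 := hamin a' (by omega)
    have h2 := han a' (by omega)
    rw [An_succ]
    linarith
  -- the index `b`
  obtain ⟨b, hbn, hbα, hbmax⟩ : ∃ b, b ≤ n ∧ An p L b ≤ π - α ∧
      ∀ j, b < j → j ≤ n → π - α < An p L j := by
    refine ⟨Nat.findGreatest (fun k => An p L k ≤ π - α) n, Nat.findGreatest_le n, ?_, ?_⟩
    · have h0 : (fun k => An p L k ≤ π - α) 0 := by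
        show An p L 0 ≤ π - α
        rw [hAn0]
        linarith
      exact Nat.findGreatest_spec (P := fun k => An p L k ≤ π - α) (Nat.zero_le n) h0
    · intro j hj hjn
      exact not_le.1 (Nat.findGreatest_is_greatest (P := fun k => An p L k ≤ π - α) hj hjn)
  have hab : a ≤ b := by
    by_contra hcon
    have := hbmax a (by omega) han'
    linarith
  have hbn' : b < n := by
    rcases lt_or_eq_of_le hbn with h | h
    · exact h
    · rw [h, hAnn] at hbα
      linarith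
  have hb2 : π - 2 * α ≤ An p L b := by
    have h1 := hbmax (b + 1) (by omega) (by omega)
    have h2 := han b hbn'
    rw [An_succ] at h1
    linarith
  have hsin : ∀ j, a ≤ j → j ≤ b → α / 2 ≤ Real.sin (An p L j) := fun j h1 h2 =>
    sin_lb hα0 hα1 (haα.trans (An_mono p hL h1)) ((An_mono p hL h2).trans hbα)
  -- the centre
  set Q := qq p L a with hQ
  set R := L / (2 * π) with hR
  have hR0 : 0 < R := by positivity
  have hLR : L = 2 * π * R := by
    rw [hR]
    field_simp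
  have hplR : ∀ k, plen p k = 2 * R * An p L k := by
    intro k
    rw [hplen k, hR]
    field_simp
  have hQn : ‖Q‖ ≤ 2.4 * R := by
    have h1 : Real.sin (An p L a) * 1.2 ≥ An p L a := by
      have h2 := Real.sin_gt_sub_cube (x := An p L a) (by linarith)
      have h3 : An p L a ^ 3 ≤ An p L a * (1 / 25) := by
        have h4 : An p L a ^ 2 ≤ 1 / 25 := by nlinarith
        have h5 : 0 ≤ An p L a := by linarith
        calc An p L a ^ 3 = An p L a * An p L a ^ 2 := by ring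
          _ ≤ An p L a * (1 / 25) := mul_le_mul_of_nonneg_left h4 h5
      nlinarith
    have hsa := hsin a le_rfl hab
    have hspos : 0 < Real.sin (An p L a) := by linarith
    rw [hQ]
    unfold qq
    rw [norm_div, norm_mul, norm_exp_negI, mul_one, Complex.norm_real, Real.norm_eq_abs,
      abs_of_pos hspos, div_le_iff₀ hspos]
    have h3 := (half_len hn hLn han').2.1
    rw [hplR a] at h3
    nlinarith
  have hIQ : ‖Complex.I * Q / 2‖ ≤ 1.2 * R := by
    rw [norm_div, norm_mul, Complex.norm_I, one_mul]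
    have : ‖(2 : ℂ)‖ = 2 := by norm_num
    rw [this]
    linarith
  -- all points are close to the centre
  have hmid : ∀ k, a ≤ k → k ≤ b → ‖p k - (p 0 + Complex.I * Q / 2)‖ ≤ 2 * R := by
    intro k hak hkb
    have hs := hsin k hak hkb
    have hs0 : Real.sin (An p L k) ≠ 0 := by
      have : 0 < Real.sin (An p L k) := by linarith
      exact this.ne'
    rw [pos_eq p L k Q hs0]
    have h1 := vari hn hL hLn hak hkb hbn (by linarith) (by linarith) (by positivity) hsin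
    have h2 : ‖qq p L k - Q‖ ≤ L / 50 := by
      apply le_of_sq_le_sq _ (by positivity)
      refine h1.trans ?_
      rw [div_le_iff₀ (by positivity)]
      calc π * (L ^ 2 / π - 4 * parea p n) ≤ ε * L ^ 2 := hEle
        _ ≤ α ^ 2 / 10000 * L ^ 2 := by
          apply mul_le_mul_of_nonneg_right _ (sq_nonneg L)
          linarith
        _ = (L / 50) ^ 2 * (α / 2) ^ 2 := by ring
    have h3 : ‖(qq p L k - Q) * ((Real.sin (An p L k) : ℂ) *
        Complex.exp (Complex.I * (An p L k : ℂ)))‖ ≤ L / 50 := by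
      rw [norm_mul, norm_mul, norm_exp_I, mul_one, Complex.norm_real, Real.norm_eq_abs]
      calc ‖qq p L k - Q‖ * |Real.sin (An p L k)| ≤ L / 50 * 1 :=
          mul_le_mul h2 (Real.abs_sin_le_one _) (abs_nonneg _) (by positivity)
        _ = L / 50 := mul_one _
    have h4 : ‖Complex.I * Q / 2 * Complex.exp (2 * (Complex.I * (An p L k : ℂ)))‖ ≤ 1.2 * R := by
      rw [norm_mul, norm_exp_2I, mul_one]
      exact hIQ
    refine (norm_sub_le _ _).trans ?_
    have h5 : L / 50 ≤ 0.2 * R := by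
      rw [hLR]
      nlinarith
    linarith
  have hout : ∀ k, k ≤ n → ‖p k - p 0‖ ≤ 0.4 * R →
      ‖p k - (p 0 + Complex.I * Q / 2)‖ ≤ 2 * R := by
    intro k _ hk
    have h1 : p k - (p 0 + Complex.I * Q / 2) = (p k - p 0) - Complex.I * Q / 2 := by ring
    rw [h1]
    refine (norm_sub_le _ _).trans ?_
    linarith
  have hlow : ∀ k, k ≤ a → ‖p k - p 0‖ ≤ 0.4 * R := by
    intro k hk
    have h1 := (half_len hn hLn (hk.trans han')).2.1
    have h2 := plen_mono p hk
    have h3 : plen p a ≤ 0.4 * R := by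
      rw [hplR a]
      nlinarith
    linarith
  have hpb : L - plen p b ≤ 4 * α * R := by
    have h1 := hplR b
    have h2 : L - plen p b = 2 * R * (π - An p L b) := by
      rw [h1]
      linarith
    rw [h2]
    nlinarith
  have hpa : plen p a ≤ 4 * α * R := by
    rw [hplR a]
    nlinarith
  have hhigh : ∀ k, b ≤ k → k ≤ n → ‖p k - p 0‖ ≤ 0.4 * R := by
    intro k hk hkn
    have h1 := (half_len hn hLn hkn).2.2
    have h2 := plen_mono p hk
    have h3 : 4 * α * R ≤ 0.4 * R := by nlinarith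
    linarith
  have hall : ∀ k, k ≤ n → ‖p k - (p 0 + Complex.I * Q / 2)‖ ≤ 2 * R := by
    intro k hk
    rcases le_total k a with h | h
    · exact hout k hk (hlow k h)
    · rcases le_total k b with h' | h'
      · exact hmid k h h'
      · exact hout k hk (hhigh k h' hk)
  refine ⟨p 0 + Complex.I * Q / 2, hall, ?_⟩
  -- the trivial bound for one term
  have hterm : ∀ k, k ≤ n → ‖p (k + 1) - p k‖ * ‖RG.dirn (p (k + 1) - p k) -
      Complex.I * ((p k - (p 0 + Complex.I * Q / 2)) / ((R : ℝ) : ℂ))‖ ^ 2 ≤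
      9 * ‖p (k + 1) - p k‖ := by
    intro k hk
    have h1 : ‖Complex.I * ((p k - (p 0 + Complex.I * Q / 2)) / ((R : ℝ) : ℂ))‖ ≤ 2 := by
      rw [norm_mul, Complex.norm_I, one_mul, norm_div, Complex.norm_real, Real.norm_eq_abs,
        abs_of_pos hR0, div_le_iff₀ hR0]
      exact hall k hk
    have h2 : ‖RG.dirn (p (k + 1) - p k) -
        Complex.I * ((p k - (p 0 + Complex.I * Q / 2)) / ((R : ℝ) : ℂ))‖ ≤ 3 := by
      refine (norm_sub_le _ _).trans ?_
      have := dirn_le (p (k + 1) - p k)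
      linarith
    have h3 : ‖RG.dirn (p (k + 1) - p k) -
        Complex.I * ((p k - (p 0 + Complex.I * Q / 2)) / ((R : ℝ) : ℂ))‖ ^ 2 ≤ 3 ^ 2 :=
      pow_le_pow_left₀ (norm_nonneg _) h2 2
    have h4 := mul_le_mul_of_nonneg_left h3 (norm_nonneg (p (k + 1) - p k))
    linarith
  -- the three parts of the sum
  rw [Finset.range_eq_Ico, ← Finset.sum_Ico_consecutive _ (Nat.zero_le a) han',
    ← Finset.sum_Ico_consecutive _ hab hbn]
  have hS1 : ∑ k ∈ Ico 0 a, ‖p (k + 1) - p k‖ * ‖RG.dirn (p (k + 1) - p k) -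
      Complex.I * ((p k - (p 0 + Complex.I * Q / 2)) / ((R : ℝ) : ℂ))‖ ^ 2 ≤
      9 * plen p a := by
    unfold plen
    rw [← Finset.range_eq_Ico, Finset.mul_sum]
    exact Finset.sum_le_sum fun k hk => hterm k (by have := mem_range.1 hk; omega)
  have hS3 : ∑ k ∈ Ico b n, ‖p (k + 1) - p k‖ * ‖RG.dirn (p (k + 1) - p k) -
      Complex.I * ((p k - (p 0 + Complex.I * Q / 2)) / ((R : ℝ) : ℂ))‖ ^ 2 ≤
      9 * (L - plen p b) := by
    have h1 : L - plen p b = ∑ k ∈ Ico b n, ‖p (k + 1) - p k‖ := by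
      rw [← hLn]
      unfold plen
      rw [Finset.sum_Ico_eq_sub _ hbn]
    rw [h1, Finset.mul_sum]
    exact Finset.sum_le_sum fun k hk => hterm k (by have := mem_Ico.1 hk; omega)
  have hS2 := mid_sum hn hL hLn hab hbn (by linarith) (by linarith) (by positivity) hsin
    (μ := π * ε) (by linarith) han
  rw [← hQ, ← hR] at hS2
  have hS2' : 3 * π / L * (90 * (L ^ 2 / π - 4 * parea p n) + 2 * L ^ 2 * (π * ε) ^ 2) /
      (α / 2) ^ 2 ≤ δ / 2 * R := by
    rw [div_le_iff₀ (by positivity), div_mul_eq_mul_div, div_le_iff₀ hL]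
    have h1 : 3 * π * (90 * (L ^ 2 / π - 4 * parea p n) + 2 * L ^ 2 * (π * ε) ^ 2) =
        270 * (π * E) + 6 * π ^ 3 * ε ^ 2 * L ^ 2 := by
      rw [hE]
      ring
    rw [h1]
    have h2 : 6 * π ^ 3 * ε ^ 2 * L ^ 2 ≤ ε * L ^ 2 := by
      apply mul_le_mul_of_nonneg_right _ (sq_nonneg L)
      have h3 : π ^ 3 ≤ 32 := by
        have : π ^ 3 ≤ 3.15 ^ 3 := pow_le_pow_left₀ hpi0.le (by linarith) 3
        linarith
      have h4 : 6 * π ^ 3 * ε ≤ 1 := by nlinarith
      calc 6 * π ^ 3 * ε ^ 2 = 6 * π ^ 3 * ε * ε := by ring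
        _ ≤ 1 * ε := mul_le_mul_of_nonneg_right h4 hε0.le
        _ = ε := one_mul _
    have h5 : δ / 2 * R * (α / 2) ^ 2 * L = δ * α ^ 2 * L ^ 2 / (16 * π) := by
      rw [hR]
      field_simp
      ring
    rw [h5, le_div_iff₀ (by positivity)]
    have h6 : (270 * (π * E) + 6 * π ^ 3 * ε ^ 2 * L ^ 2) ≤ 271 * (ε * L ^ 2) := by linarith
    calc (270 * (π * E) + 6 * π ^ 3 * ε ^ 2 * L ^ 2) * (16 * π) ≤
        271 * (ε * L ^ 2) * (16 * π) := mul_le_mul_of_nonneg_right h6 (by positivity)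
      _ ≤ 271 * (ε * L ^ 2) * (16 * 3.15) := by
        apply mul_le_mul_of_nonneg_left (by linarith) (by positivity)
      _ ≤ 24000 * ε * L ^ 2 := by nlinarith [sq_nonneg L]
      _ ≤ δ * α ^ 2 * L ^ 2 := mul_le_mul_of_nonneg_right hε2 (sq_nonneg L)
  have hfin : 9 * (4 * α * R) + 9 * (4 * α * R) ≤ δ / 2 * R := by nlinarith
  linarith

end Pool.Agent.Helper38.IS
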