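import Pool.Agent.Helper38.IS.Vari

/-!
# IS-04: the tangent in the middle

`R = L/(2π)`, `Q` arbitrary, `c0 = i Q/2`, `Φ = An k`, `φ = an k ≤ 1`, `v = p (k+1) - p k`, `q = qq k`, `z = p k - p 0 = q sin Φ e^{iΦ}`, `φ = ‖v‖/(2R)`.
* T1: `‖v - sin φ e^{i(2Φ+φ)} q‖ = sin Φ' ‖q' - q‖` (`diff_q`), its square is `≤ sin Φ' φ sl/sin Φ ≤ φ sl/σ` (`step_le`).
* T2: `‖φ Q e^{2iΦ} - sin φ e^{i(2Φ+φ)} q‖ ≤ φ ‖Q - q‖ + ‖q‖ ‖φ - sin φ e^{iφ}‖ ≤ φ ‖Q - q‖ + 3/2 φ² ‖q‖` (`φ - sin φ ≤ φ²/2`, `‖1 - e^{iφ}‖ ≤ φ`).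
* T3: `z - c0 = -(i/2) Q e^{2iΦ} + (q - Q) sin Φ e^{iΦ}`, so `‖‖v‖ i (z - c0)/R - φ Q e^{2iΦ}‖ ≤ ‖v‖ ‖q - Q‖/R = 2 φ ‖q - Q‖`  (`‖v‖/(2R) = φ`).
* `tang_step`: so `‖v - ‖v‖ i (z - c0)/R‖ ≤ √(φ sl/σ) + 3 φ ‖q - Q‖ + 3/2 φ² ‖q‖`; square (`(x+y+w)² ≤ 3 (x²+y²+w²)`), and `‖v‖ ‖dirn v - i(z-c0)/R‖² = ‖v - ‖v‖ i (z-c0)/R‖²/‖v‖`, `1/‖v‖ = π/(L φ)`.
  If `v = 0` both sides are clear (`0 ≤` right).
* `mid_sum`: sum over `Ico a b` with `Q = qq a`, `vari`, `total`, `qq_le`, `an ≤ μ`: `∑ ≤ (3π/L) (E/σ + 9 π π E/σ² + 9/4 (L/(2σ))² μ² π) ≤ (3π/L) (90 E + 2 L² μ²)/σ²` (`σ ≤ 1`).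
-/

namespace Pool.Agent.Helper38.IS

open Finset Real Pool.Agent.Helper98.LC Pool.Agent.Helper38.LC2

variable {p : ℕ → ℂ} {n : ℕ} {L σ : ℝ}

private lemma an_nonneg (hL : 0 < L) (k : ℕ) : 0 ≤ an p L k := by
  unfold an
  positivity

private lemma An_mono (hL : 0 < L) : Monotone (An p L) := by
  refine monotone_nat_of_le_succ fun k => ?_
  rw [An_succ]
  linarith [an_nonneg (p := p) hL k]

private lemma sum_an {a b : ℕ} (hab : a ≤ b) :
    ∑ k ∈ Ico a b, an p L k = An p L b - An p L a := by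
  induction b, hab using Nat.le_induction with
  | base => simp
  | succ m hm ih =>
    rw [Finset.sum_Ico_succ_top hm, ih, An_succ]
    ring

private lemma t2 {φ : ℝ} (h0 : 0 ≤ φ) (h1 : φ ≤ 1) :
    ‖(Real.sin φ : ℂ) * Complex.exp (Complex.I * (φ : ℂ)) - (φ : ℂ)‖ ≤ 3 / 2 * φ ^ 2 := by
  have h2 : (Real.sin φ : ℂ) * Complex.exp (Complex.I * (φ : ℂ)) - (φ : ℂ) =
      (Real.sin φ : ℂ) * (Complex.exp (Complex.I * (φ : ℂ)) - 1) + ((Real.sin φ - φ : ℝ) : ℂ) := by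
    push_cast
    ring
  rw [h2]
  refine (norm_add_le _ _).trans ?_
  rw [norm_mul, Complex.norm_real, Complex.norm_real]
  have hs1 := Real.sin_le h0
  have hs2 := Real.sin_ge_sub_cube h0
  have hs0 : 0 ≤ Real.sin φ := Real.sin_nonneg_of_nonneg_of_le_pi h0 (by linarith [Real.pi_gt_three])
  have h3 : ‖Complex.exp (Complex.I * (φ : ℂ)) - 1‖ ≤ φ := by
    refine Real.norm_exp_I_mul_ofReal_sub_one_le.trans ?_
    rw [Real.norm_eq_abs, abs_of_nonneg h0]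
  have h4 : ‖Real.sin φ‖ = Real.sin φ := by rw [Real.norm_eq_abs, abs_of_nonneg hs0]
  have h5 : ‖Real.sin φ - φ‖ = φ - Real.sin φ := by
    rw [Real.norm_eq_abs, abs_of_nonpos (by linarith)]
    ring
  rw [h4, h5]
  have h6 : Real.sin φ * ‖Complex.exp (Complex.I * (φ : ℂ)) - 1‖ ≤ φ * φ :=
    mul_le_mul hs1 h3 (norm_nonneg _) h0
  have h7 : φ ^ 3 ≤ φ ^ 2 := pow_le_pow_of_le_one h0 h1 (by norm_num)
  nlinarith

private lemma sin_exp (Φ : ℝ) :
    (1 : ℂ) = Complex.exp (Complex.I * (Φ : ℂ)) * Complex.exp (Complex.I * (Φ : ℂ)) -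
      2 * Complex.I * (Real.sin Φ : ℂ) * Complex.exp (Complex.I * (Φ : ℂ)) := by
  rw [Complex.ofReal_sin, Complex.sin]
  have h1 : Complex.exp (-(Φ : ℂ) * Complex.I) * Complex.exp (Complex.I * (Φ : ℂ)) = 1 := by
    rw [← Complex.exp_add]
    have : -(Φ : ℂ) * Complex.I + Complex.I * (Φ : ℂ) = 0 := by ring
    rw [this, Complex.exp_zero]
  have h2 : Complex.exp ((Φ : ℂ) * Complex.I) = Complex.exp (Complex.I * (Φ : ℂ)) := by
    rw [mul_comm]
  rw [h2]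
  generalize Complex.exp (Complex.I * (Φ : ℂ)) = e at *
  generalize Complex.exp (-(Φ : ℂ) * Complex.I) = f at *
  linear_combination (-1 : ℂ) * h1 + (f * e - e * e) * Complex.I_sq

private lemma z_eq {k : ℕ} (hs : 0 < Real.sin (An p L k)) :
    p k - p 0 = qq p L k * (Real.sin (An p L k) : ℂ) *
      Complex.exp (Complex.I * (An p L k : ℂ)) := by
  unfold qq
  have h1 : (Real.sin (An p L k) : ℂ) ≠ 0 := by exact_mod_cast hs.ne'
  have h2 : Complex.exp (-(Complex.I * (An p L k : ℂ))) *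
      Complex.exp (Complex.I * (An p L k : ℂ)) = 1 := by
    rw [← Complex.exp_add, neg_add_cancel, Complex.exp_zero]
  rw [div_mul_cancel₀ _ h1, mul_assoc, h2, mul_one]

private lemma t1 (hL : 0 < L) {k : ℕ} (h0 : 0 < An p L k) (h1 : An p L (k + 1) < π)
    (hσ : 0 < σ) (hs : σ ≤ Real.sin (An p L k)) :
    ‖(p (k + 1) - p k) - (Real.sin (an p L k) : ℂ) *
      Complex.exp (Complex.I * ((2 * An p L k + an p L k : ℝ) : ℂ)) * qq p L k‖ ^ 2 ≤
      an p L k * sl p L k / σ := by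
  have hφ := an_nonneg (p := p) hL k
  have hst := step_le hL h0 h1
  have hA := An_succ p L k
  have hΦ' : 0 < An p L (k + 1) := by linarith
  have hsin' : 0 < Real.sin (An p L (k + 1)) := Real.sin_pos_of_pos_of_lt_pi hΦ' h1
  have hsin0 : 0 < Real.sin (An p L k) := hσ.trans_le hs
  have hd := diff_q (Φ := An p L k) (φ := an p L k) hsin0 (by rw [← hA]; exact hsin')
    (p k - p 0) (p (k + 1) - p k)
  have e1 : (p k - p 0) + (p (k + 1) - p k) = p (k + 1) - p 0 := by ring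
  rw [e1, ← hA] at hd
  have e2 : (p k - p 0) * Complex.exp (-(Complex.I * (An p L k : ℂ))) /
      (Real.sin (An p L k) : ℂ) = qq p L k := rfl
  have e3 : (p (k + 1) - p 0) * Complex.exp (-(Complex.I * (An p L (k + 1) : ℂ))) /
      (Real.sin (An p L (k + 1)) : ℂ) = qq p L (k + 1) := rfl
  rw [e2, e3] at hd
  rw [hd, norm_mul, norm_mul, Complex.norm_exp_I_mul_ofReal, mul_one, Complex.norm_real,
    Real.norm_eq_abs, abs_of_pos hsin', mul_pow]
  rw [le_div_iff₀ hσ]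
  have hX : 0 ≤ ‖qq p L (k + 1) - qq p L k‖ ^ 2 := sq_nonneg _
  generalize ‖qq p L (k + 1) - qq p L k‖ ^ 2 = X at *
  have hs1 : Real.sin (An p L (k + 1)) ≤ 1 := Real.sin_le_one _
  generalize Real.sin (An p L (k + 1)) = s' at *
  generalize Real.sin (An p L k) = s at *
  have k1 : s' ^ 2 * X ≤ s' * X := by
    have : s' ^ 2 ≤ s' := by nlinarith
    exact mul_le_mul_of_nonneg_right this hX
  have k2 : s' * X * σ ≤ s' * X * s := mul_le_mul_of_nonneg_left hs (by positivity)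
  calc s' ^ 2 * X * σ ≤ s' * X * σ := mul_le_mul_of_nonneg_right k1 hσ.le
    _ ≤ s' * X * s := k2
    _ = s * s' * X := by ring
    _ ≤ _ := hst

theorem tang_step (hL : 0 < L) {k : ℕ} (h0 : 0 < An p L k) (h1 : An p L (k + 1) < π)
    (hφ : an p L k ≤ 1) (hσ : 0 < σ) (hs : σ ≤ Real.sin (An p L k)) (Q : ℂ) :
    ‖p (k + 1) - p k‖ * ‖RG.dirn (p (k + 1) - p k) -
        Complex.I * ((p k - (p 0 + Complex.I * Q / 2)) / ((L / (2 * π) : ℝ) : ℂ))‖ ^ 2 ≤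
      3 * π / L * (sl p L k / σ + 9 * an p L k * ‖qq p L k - Q‖ ^ 2 +
        9 / 4 * ‖qq p L k‖ ^ 2 * an p L k ^ 3) := by
  have hφ0 := an_nonneg (p := p) hL k
  have hsl := sl_nonneg hL h0 h1
  have hpi := Real.pi_pos
  rcases (norm_nonneg (p (k + 1) - p k)).eq_or_lt with hv | hv
  · rw [← hv, zero_mul]
    positivity
  have hs0 : 0 < Real.sin (An p L k) := hσ.trans_le hs
  have ht1 := t1 hL h0 h1 hσ hs
  have ht2 := t2 hφ0 hφ
  have hz := z_eq hs0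
  have hse := sin_exp (An p L k)
  have hsφ : ‖p (k + 1) - p k‖ = L * an p L k / π := by
    unfold an
    field_simp
  have hR : ((L / (2 * π) : ℝ) : ℂ) ≠ 0 := by
    have : (L / (2 * π) : ℝ) ≠ 0 := by positivity
    exact_mod_cast this
  -- the two exponentials
  have hE : Complex.exp (Complex.I * ((2 * An p L k + an p L k : ℝ) : ℂ)) =
      Complex.exp (Complex.I * (An p L k : ℂ)) * Complex.exp (Complex.I * (An p L k : ℂ)) *
        Complex.exp (Complex.I * (an p L k : ℂ)) := by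
    rw [← Complex.exp_add, ← Complex.exp_add]
    congr 1
    push_cast
    ring
  have hne : ‖Complex.exp (Complex.I * (An p L k : ℂ))‖ = 1 := Complex.norm_exp_I_mul_ofReal _
  have hsn : ‖(Real.sin (An p L k) : ℂ)‖ ≤ 1 := by
    rw [Complex.norm_real, Real.norm_eq_abs]
    exact Real.abs_sin_le_one _
  rw [hE] at ht1
  -- the vector
  have hT : ((‖p (k + 1) - p k‖ : ℝ) : ℂ) *
      (Complex.I * ((p k - (p 0 + Complex.I * Q / 2)) / ((L / (2 * π) : ℝ) : ℂ))) =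
      2 * (an p L k : ℂ) * Complex.I * ((p k - p 0) - Complex.I * Q / 2) := by
    have q1 : ((‖p (k + 1) - p k‖ : ℝ) : ℂ) = 2 * (an p L k : ℂ) * ((L / (2 * π) : ℝ) : ℂ) := by
      rw [hsφ]
      push_cast
      have : (π : ℂ) ≠ 0 := by exact_mod_cast hpi.ne'
      field_simp
    rw [q1]
    field_simp
    ring
  have hdir : ‖p (k + 1) - p k‖ * ‖RG.dirn (p (k + 1) - p k) -
        Complex.I * ((p k - (p 0 + Complex.I * Q / 2)) / ((L / (2 * π) : ℝ) : ℂ))‖ ^ 2 =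
      ‖(p (k + 1) - p k) - ((‖p (k + 1) - p k‖ : ℝ) : ℂ) *
      (Complex.I * ((p k - (p 0 + Complex.I * Q / 2)) / ((L / (2 * π) : ℝ) : ℂ)))‖ ^ 2 /
        ‖p (k + 1) - p k‖ := by
    have q0 : ((‖p (k + 1) - p k‖ : ℝ) : ℂ) ≠ 0 := by exact_mod_cast hv.ne'
    have q1 : RG.dirn (p (k + 1) - p k) -
        Complex.I * ((p k - (p 0 + Complex.I * Q / 2)) / ((L / (2 * π) : ℝ) : ℂ)) =
        ((p (k + 1) - p k) - ((‖p (k + 1) - p k‖ : ℝ) : ℂ) *
      (Complex.I * ((p k - (p 0 + Complex.I * Q / 2)) / ((L / (2 * π) : ℝ) : ℂ)))) /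
        ((‖p (k + 1) - p k‖ : ℝ) : ℂ) := by
      unfold RG.dirn
      rw [sub_div (p (k + 1) - p k) (((‖p (k + 1) - p k‖ : ℝ) : ℂ) * _), mul_div_cancel_left₀ _ q0]
    rw [q1, norm_div, Complex.norm_real, norm_norm, div_pow]
    field_simp
  rw [hdir, div_le_iff₀ hv, hT]
  have hmain : ‖(p (k + 1) - p k) -
      2 * (an p L k : ℂ) * Complex.I * ((p k - p 0) - Complex.I * Q / 2)‖ ≤
      ‖(p (k + 1) - p k) - (Real.sin (an p L k) : ℂ) *
        (Complex.exp (Complex.I * (An p L k : ℂ)) * Complex.exp (Complex.I * (An p L k : ℂ)) *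
          Complex.exp (Complex.I * (an p L k : ℂ))) * qq p L k‖ +
      3 * an p L k * ‖qq p L k - Q‖ + 3 / 2 * an p L k ^ 2 * ‖qq p L k‖ := by
    rw [hz]
    have hnφ : ‖(an p L k : ℂ)‖ = an p L k := by
      rw [Complex.norm_real, Real.norm_eq_abs, abs_of_nonneg hφ0]
    generalize p (k + 1) - p k = v at *
    generalize qq p L k = q at *
    generalize (Real.sin (An p L k) : ℂ) = S at *
    generalize Complex.exp (Complex.I * (An p L k : ℂ)) = e at *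
    generalize Complex.exp (Complex.I * (an p L k : ℂ)) = g at *
    generalize (Real.sin (an p L k) : ℂ) = t at *
    have id1 : v - 2 * (an p L k : ℂ) * Complex.I * (q * S * e - Complex.I * Q / 2) =
        (v - t * (e * e * g) * q) + (e * e * ((t * g - (an p L k : ℂ)) * q)) +
          ((an p L k : ℂ) * (e * e) * (q - Q)) +
          (-(2 * (an p L k : ℂ) * Complex.I * S * e * (q - Q))) := by
      linear_combination (-(an p L k : ℂ) * Q) * hse + ((an p L k : ℂ) * Q) * Complex.I_sq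
    rw [id1]
    refine (norm_add_le _ _).trans ?_
    have r1 : ‖-(2 * (an p L k : ℂ) * Complex.I * S * e * (q - Q))‖ ≤ 2 * an p L k * ‖q - Q‖ := by
      rw [norm_neg, norm_mul, norm_mul, norm_mul, norm_mul, norm_mul, hne, hnφ, Complex.norm_I]
      have : 2 * an p L k * ‖S‖ * ‖q - Q‖ ≤ 2 * an p L k * 1 * ‖q - Q‖ := by
        gcongr
      simpa using this
    have r2 : ‖(an p L k : ℂ) * (e * e) * (q - Q)‖ = an p L k * ‖q - Q‖ := by
      rw [norm_mul, norm_mul, norm_mul, hne, hnφ]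
      ring
    have r3 : ‖e * e * ((t * g - (an p L k : ℂ)) * q)‖ ≤ 3 / 2 * an p L k ^ 2 * ‖q‖ := by
      rw [norm_mul, norm_mul, norm_mul, hne]
      have := mul_le_mul_of_nonneg_right ht2 (norm_nonneg q)
      linarith
    have r4 := norm_add_le ((v - t * (e * e * g) * q) + (e * e * ((t * g - (an p L k : ℂ)) * q)))
      ((an p L k : ℂ) * (e * e) * (q - Q))
    have r5 := norm_add_le (v - t * (e * e * g) * q) (e * e * ((t * g - (an p L k : ℂ)) * q))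
    linarith
  have hfin : ‖(p (k + 1) - p k) -
      2 * (an p L k : ℂ) * Complex.I * ((p k - p 0) - Complex.I * Q / 2)‖ ^ 2 ≤
      3 * (an p L k * sl p L k / σ + (3 * an p L k * ‖qq p L k - Q‖) ^ 2 +
        (3 / 2 * an p L k ^ 2 * ‖qq p L k‖) ^ 2) := by
    have q1 := pow_le_pow_left₀ (norm_nonneg _) hmain 2
    refine q1.trans ?_
    generalize ‖(p (k + 1) - p k) - (Real.sin (an p L k) : ℂ) *
        (Complex.exp (Complex.I * (An p L k : ℂ)) * Complex.exp (Complex.I * (An p L k : ℂ)) *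
          Complex.exp (Complex.I * (an p L k : ℂ))) * qq p L k‖ = A at *
    generalize 3 * an p L k * ‖qq p L k - Q‖ = B at *
    generalize 3 / 2 * an p L k ^ 2 * ‖qq p L k‖ = C at *
    nlinarith [sq_nonneg (A - B), sq_nonneg (A - C), sq_nonneg (B - C)]
  refine hfin.trans (le_of_eq ?_)
  rw [hsφ]
  field_simp
  ring

theorem mid_sum (hn : p n = p 0) (hL : 0 < L) (hLn : plen p n = L) {a b : ℕ} (hab : a ≤ b)
    (hbn : b ≤ n) (ha : 0 < An p L a) (hb : An p L b < π) (hσ : 0 < σ)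
    (hs : ∀ j, a ≤ j → j ≤ b → σ ≤ Real.sin (An p L j)) {μ : ℝ} (hμ : μ ≤ 1)
    (hm : ∀ j, j < n → an p L j ≤ μ) :
    ∑ k ∈ Ico a b, ‖p (k + 1) - p k‖ * ‖RG.dirn (p (k + 1) - p k) -
        Complex.I * ((p k - (p 0 + Complex.I * qq p L a / 2)) / ((L / (2 * π) : ℝ) : ℂ))‖ ^ 2 ≤
      3 * π / L * (90 * (L ^ 2 / π - 4 * parea p n) + 2 * L ^ 2 * μ ^ 2) / σ ^ 2 := by
  have hpi := Real.pi_pos
  have hmono := An_mono (p := p) hL
  have htot := total hn hL hLn hab hbn ha hb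
  set E : ℝ := L ^ 2 / π - 4 * parea p n with hE
  have hσ1 : σ ≤ 1 := (hs a le_rfl hab).trans (Real.sin_le_one _)
  have hE0 : 0 ≤ E := by
    have h1 := vari hn hL hLn (le_refl a) hab hbn ha hb hσ hs
    rw [← hE] at h1
    have h2 : 0 ≤ π * E / σ ^ 2 := (sq_nonneg _).trans h1
    have h3 : 0 < σ ^ 2 := by positivity
    rw [le_div_iff₀ h3, zero_mul] at h2
    exact nonneg_of_mul_nonneg_right h2 hpi
  have hterm : ∀ k ∈ Ico a b, ‖p (k + 1) - p k‖ * ‖RG.dirn (p (k + 1) - p k) -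
        Complex.I * ((p k - (p 0 + Complex.I * qq p L a / 2)) / ((L / (2 * π) : ℝ) : ℂ))‖ ^ 2 ≤
      3 * π / L * (sl p L k / σ + (9 * (π * E / σ ^ 2) + 9 / 4 * (L / (2 * σ)) ^ 2 * μ ^ 2) *
        an p L k) := by
    intro k hk
    rw [Finset.mem_Ico] at hk
    obtain ⟨hk1, hk2⟩ := hk
    have g0 : 0 < An p L k := ha.trans_le (hmono hk1)
    have g1 : An p L (k + 1) < π := (hmono (Nat.succ_le_of_lt hk2)).trans_lt hb
    have gφ : an p L k ≤ μ := hm k (hk2.trans_le hbn)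
    have gφ0 := an_nonneg (p := p) hL k
    have gs := hs k hk1 hk2.le
    have h1 := tang_step hL g0 g1 (gφ.trans hμ) hσ gs (qq p L a)
    refine h1.trans ?_
    refine mul_le_mul_of_nonneg_left ?_ (by positivity)
    have h2 := vari hn hL hLn hk1 hk2.le hbn ha hb hσ hs
    rw [← hE] at h2
    have h3 := qq_le hn hL hLn (hk2.le.trans hbn) hσ gs
    have h4 : 9 * an p L k * ‖qq p L k - qq p L a‖ ^ 2 ≤ 9 * an p L k * (π * E / σ ^ 2) :=
      mul_le_mul_of_nonneg_left h2 (by positivity)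
    have h5 : ‖qq p L k‖ ^ 2 ≤ (L / (2 * σ)) ^ 2 := pow_le_pow_left₀ (norm_nonneg _) h3 2
    have h6 : an p L k ^ 2 ≤ μ ^ 2 := pow_le_pow_left₀ gφ0 gφ 2
    have h7 : ‖qq p L k‖ ^ 2 * an p L k ^ 2 ≤ (L / (2 * σ)) ^ 2 * μ ^ 2 :=
      mul_le_mul h5 h6 (by positivity) (by positivity)
    have h8 := mul_le_mul_of_nonneg_right h7 gφ0
    nlinarith
  refine (Finset.sum_le_sum hterm).trans ?_
  rw [← Finset.mul_sum, Finset.sum_add_distrib, ← Finset.mul_sum, ← Finset.sum_div,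
    sum_an hab]
  have hx : 3 * π / L * (90 * E + 2 * L ^ 2 * μ ^ 2) / σ ^ 2 =
      3 * π / L * ((90 * E + 2 * L ^ 2 * μ ^ 2) / σ ^ 2) := mul_div_assoc _ _ _
  rw [hx]
  refine mul_le_mul_of_nonneg_left ?_ (by positivity)
  have hAB : An p L b - An p L a ≤ π := by linarith
  have k1 : (9 * (π * E / σ ^ 2) + 9 / 4 * (L / (2 * σ)) ^ 2 * μ ^ 2) *
      (An p L b - An p L a) ≤
      (9 * (π * E / σ ^ 2) + 9 / 4 * (L / (2 * σ)) ^ 2 * μ ^ 2) * π :=
    mul_le_mul_of_nonneg_left hAB (by positivity)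
  have k2 : (∑ k ∈ Ico a b, sl p L k) / σ ≤ E / σ ^ 2 := by
    rw [div_le_div_iff₀ hσ (by positivity)]
    have m1 : (∑ k ∈ Ico a b, sl p L k) * σ ^ 2 ≤ E * σ ^ 2 :=
      mul_le_mul_of_nonneg_right htot (by positivity)
    have m2 : E * σ ^ 2 ≤ E * σ := by
      refine mul_le_mul_of_nonneg_left ?_ hE0
      nlinarith
    linarith
  refine (add_le_add k2 k1).trans ?_
  have k3 : E / σ ^ 2 + (9 * (π * E / σ ^ 2) + 9 / 4 * (L / (2 * σ)) ^ 2 * μ ^ 2) * π =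
      ((1 + 9 * π ^ 2) * E + 9 / 16 * π * (L ^ 2 * μ ^ 2)) / σ ^ 2 := by
    field_simp
    ring
  rw [k3]
  have hπ2 : π ^ 2 ≤ 9.87 := by
    have := Real.pi_lt_d4
    nlinarith [Real.pi_gt_d4]
  have hπ1 : π ≤ 3.2 := by linarith [Real.pi_lt_d2]
  have k4 : (1 + 9 * π ^ 2) * E ≤ 90 * E := mul_le_mul_of_nonneg_right (by linarith) hE0
  have k5 : 9 / 16 * π * (L ^ 2 * μ ^ 2) ≤ 2 * (L ^ 2 * μ ^ 2) :=
    mul_le_mul_of_nonneg_right (by linarith) (by positivity)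
  refine div_le_div_of_nonneg_right ?_ (by positivity)
  linarith

end Pool.Agent.Helper38.IS
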