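import Pool.Agent.Helper38.IS.Ident

/-!
# IS-02: the slack of one step and the total slack

`L > 0`; `An p L (k+1) = An p L k + an p L k`; `an ≥ 0`; `plen p k = L * An p L k / π`.
* `step_le`: if `an p L k > 0`: `slack_q` with `Φ = An k`, `φ = an k`, `z = p k - p 0`, `w = p (k+1) - p k`, and `ct φ ‖w‖² ≤ ‖w‖²/φ = L ‖w‖/π` (`ct_le`).
  If `an p L k = 0`: `p (k+1) = p k`, both sides are `0`.
* `sl_nonneg`: from `step_le` if `an > 0`, `= 0` otherwise.
* `tele`: `∑_{Ico a b} sl = (L/π)(plen p b - plen p a) + ct (An a) ‖z a‖² - ct (An b) ‖z b‖² - 4 (pbul p b - pbul p a)` (`pbul_succ`), induction on `b`.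
* `total`: `dido_theta` for `p` with `a` steps and `θ = An a` (`∈ (0, π)`): `An a * (ct ‖z a‖² + 4 pbul p a) ≤ (plen p a)² = plen p a * L An a/π`: divide by `An a`: `ct ‖z a‖² + 4 pbul p a ≤ (L/π) plen p a`.
  The same for the path `j ↦ p (b + j)` with `n - b` steps, `θ = π - An b` (its length is `L - plen p b = L (π - An b)/π`): `ct (π - An b) ‖z b‖² + 4 pbul' ≤ (L/π)(L - plen p b)`,
  `ct (π - x) = - ct x`, and `pbul p b + pbul' = parea p n` (`pbul' = parea p n - parea p b - cr (p b) (p 0)/2`, `cr` antisymmetric).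
-/

namespace Pool.Agent.Helper38.IS

open Finset Real Pool.Agent.Helper98.LC Pool.Agent.Helper38.LC2

variable {p : ℕ → ℂ} {n : ℕ} {L : ℝ}

theorem An_succ (p : ℕ → ℂ) (L : ℝ) (k : ℕ) : An p L (k + 1) = An p L k + an p L k := by
  unfold An an plen
  rw [Finset.sum_range_succ]
  ring

private theorem an_zero (hL : 0 < L) {k : ℕ} (h : ¬ 0 < an p L k) : p (k + 1) = p k := by
  unfold an at h
  by_contra h2
  have h3 : 0 < ‖p (k + 1) - p k‖ := norm_pos_iff.2 (sub_ne_zero.2 h2)
  exact h (by positivity)

private theorem an_nonneg (hL : 0 < L) (k : ℕ) : 0 ≤ an p L k := by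
  unfold an
  positivity

theorem step_le (hL : 0 < L) {k : ℕ} (h0 : 0 < An p L k) (h1 : An p L (k + 1) < π) :
    Real.sin (An p L k) * Real.sin (An p L (k + 1)) * ‖qq p L (k + 1) - qq p L k‖ ^ 2 ≤
      an p L k * sl p L k := by
  by_cases ha : 0 < an p L k
  · have hs := An_succ p L k
    rw [hs] at h1
    have h2 := slack_q h0 ha h1 (p k - p 0) (p (k + 1) - p k)
    have e1 : p k - p 0 + (p (k + 1) - p k) = p (k + 1) - p 0 := by ring
    rw [e1] at h2
    unfold qq
    rw [hs]
    refine h2.trans (mul_le_mul_of_nonneg_left ?_ ha.le)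
    unfold sl
    rw [hs]
    have h3 := ct_le ha (by linarith)
    have h4 : ct (an p L k) * ‖p (k + 1) - p k‖ ^ 2 ≤ L / π * ‖p (k + 1) - p k‖ := by
      refine (mul_le_mul_of_nonneg_right h3 (by positivity)).trans (le_of_eq ?_)
      have hw : 0 < ‖p (k + 1) - p k‖ := by
        by_contra h5
        have h6 : ‖p (k + 1) - p k‖ = 0 := le_antisymm (not_lt.1 h5) (norm_nonneg _)
        unfold an at ha
        rw [h6] at ha
        simp at ha
      unfold an
      have hpi := Real.pi_pos
      field_simp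
    linarith
  · have e := an_zero hL ha
    have e2 : an p L k = 0 := le_antisymm (not_lt.1 ha) (an_nonneg hL k)
    have hs := An_succ p L k
    rw [e2, add_zero] at hs
    unfold qq
    rw [e2, hs, e, sub_self, norm_zero]
    simp

theorem sl_nonneg (hL : 0 < L) {k : ℕ} (h0 : 0 < An p L k) (h1 : An p L (k + 1) < π) :
    0 ≤ sl p L k := by
  by_cases ha : 0 < an p L k
  · have h2 := step_le hL h0 h1
    have hs := An_succ p L k
    have s0 : 0 ≤ Real.sin (An p L k) :=
      sin_nonneg_of_nonneg_of_le_pi h0.le (by linarith)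
    have s1 : 0 ≤ Real.sin (An p L (k + 1)) :=
      sin_nonneg_of_nonneg_of_le_pi (by linarith) h1.le
    have h3 : 0 ≤ an p L k * sl p L k := le_trans (by positivity) h2
    exact nonneg_of_mul_nonneg_right h3 ha
  · have e := an_zero hL ha
    have e2 : an p L k = 0 := le_antisymm (not_lt.1 ha) (an_nonneg hL k)
    have hs := An_succ p L k
    rw [e2, add_zero] at hs
    unfold sl
    rw [hs, e, sub_self, norm_zero]
    unfold cr
    simp

private theorem tele (p : ℕ → ℂ) (L : ℝ) {a b : ℕ} (hab : a ≤ b) :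
    ∑ k ∈ Ico a b, sl p L k = L / π * (plen p b - plen p a) +
      ct (An p L a) * ‖p a - p 0‖ ^ 2 - ct (An p L b) * ‖p b - p 0‖ ^ 2 -
      4 * (pbul p b - pbul p a) := by
  induction b, hab using Nat.le_induction with
  | base => simp
  | succ b hb ih =>
    rw [Finset.sum_Ico_succ_top hb, ih, pbul_succ]
    have h1 : plen p (b + 1) = plen p b + ‖p (b + 1) - p b‖ := by
      unfold plen
      rw [Finset.sum_range_succ]
    rw [h1]
    unfold sl
    ring

private theorem plen_mono (p : ℕ → ℂ) {a b : ℕ} (hab : a ≤ b) : plen p a ≤ plen p b := by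
  unfold plen
  exact Finset.sum_le_sum_of_subset_of_nonneg (Finset.range_mono hab) fun _ _ _ => norm_nonneg _

private theorem ct_pi_sub (x : ℝ) : ct (π - x) = - ct x := by
  unfold ct
  rw [Real.cos_pi_sub, Real.sin_pi_sub, neg_div]

theorem total (hn : p n = p 0) (hL : 0 < L) (hLn : plen p n = L) {a b : ℕ} (hab : a ≤ b)
    (hbn : b ≤ n) (ha : 0 < An p L a) (hb : An p L b < π) :
    ∑ k ∈ Ico a b, sl p L k ≤ L ^ 2 / π - 4 * parea p n := by
  have hpi := Real.pi_pos
  rw [tele p L hab]
  have hla := plen_mono p hab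
  have hlb := plen_mono p hbn
  have hAab : An p L a ≤ An p L b := by
    unfold An
    gcongr
  have hb0 : 0 < An p L b := lt_of_lt_of_le ha hAab
  -- the first part
  have h1 := dido_theta p a ha (lt_of_le_of_lt hAab hb)
  have e1 : plen p a ^ 2 = An p L a * (L / π * plen p a) := by
    unfold An
    field_simp
  rw [e1] at h1
  have h2 := le_of_mul_le_mul_left h1 ha
  -- the last part
  have h3 := dido_theta (fun j => p (b + j)) (n - b) (θ := π - An p L b) (by linarith)
    (by linarith)
  have e2 : plen (fun j => p (b + j)) (n - b) = L - plen p b := by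
    have h4 : plen p n = plen p b + ∑ j ∈ range (n - b), ‖p (b + j + 1) - p (b + j)‖ := by
      unfold plen
      have h5 := Finset.sum_range_add (fun j => ‖p (j + 1) - p j‖) b (n - b)
      rw [Nat.add_sub_cancel' hbn] at h5
      exact h5
    rw [hLn] at h4
    have h6 : plen (fun j => p (b + j)) (n - b) =
        ∑ j ∈ range (n - b), ‖p (b + j + 1) - p (b + j)‖ := rfl
    rw [h6]
    linarith
  have e3 : parea (fun j => p (b + j)) (n - b) = parea p n - parea p b := by
    have h5 := Finset.sum_range_add (fun j => cr (p j) (p (j + 1))) b (n - b)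
    rw [Nat.add_sub_cancel' hbn] at h5
    have h6 : parea (fun j => p (b + j)) (n - b) =
        (∑ j ∈ range (n - b), cr (p (b + j)) (p (b + j + 1))) / 2 := rfl
    rw [h6]
    unfold parea
    rw [h5]
    ring
  have e4 : pbul p b + pbul (fun j => p (b + j)) (n - b) = parea p n := by
    unfold pbul
    rw [e3]
    have h7 : p (b + (n - b)) = p 0 := by rw [Nat.add_sub_cancel' hbn, hn]
    have h8 : cr (p b) (p 0) = - cr (p 0) (p b) := by
      unfold cr
      ring
    change parea p b - cr (p 0) (p b) / 2 + (parea p n - parea p b -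
      cr (p (b + 0)) (p (b + (n - b))) / 2) = parea p n
    rw [h7, add_zero, h8]
    ring
  have e5 : ‖(fun j => p (b + j)) (n - b) - (fun j => p (b + j)) 0‖ = ‖p b - p 0‖ := by
    change ‖p (b + (n - b)) - p (b + 0)‖ = _
    rw [Nat.add_sub_cancel' hbn, hn, add_zero, norm_sub_rev]
  have e6 : (L - plen p b) ^ 2 = (π - An p L b) * (L / π * (L - plen p b)) := by
    unfold An
    field_simp
  rw [e2, e5, ct_pi_sub, e6] at h3
  have h4 := le_of_mul_le_mul_left h3 (by linarith : 0 < π - An p L b)
  have h5 := le_abs_self (pbul p a)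
  have h6 := le_abs_self (pbul (fun j => p (b + j)) (n - b))
  have e7 : L ^ 2 / π = L / π * L := by ring
  rw [e7, ← e4]
  have e8 : L / π * (L - plen p b) = L / π * L - L / π * plen p b := by ring
  have e9 : L / π * (plen p b - plen p a) = L / π * plen p b - L / π * plen p a := by ring
  rw [e8] at h4
  rw [e9]
  linarith

end Pool.Agent.Helper38.IS
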