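import Pool.Agent.Helper38.IS.Tele

/-!
# IS-03: `qq` is almost constant in the middle

`E = L²/π - 4 parea p n`, `σ ≤ sin (An k)` for `a ≤ k ≤ b`, `0 < An a`, `An b < π`.
`‖qq k - qq a‖ ≤ ∑_{Ico a k} ‖qq (j+1) - qq j‖ ≤ ∑ √(an j * sl j)/σ ≤ √(∑ an j) √(∑ sl j)/σ ≤ √(π E)/σ`
(`step_le`, Cauchy-Schwarz, `∑_{Ico a b} an = An b - An a ≤ π`, `total`).
* `qq_le`: `‖p k - p 0‖ ≤ L/2` (`plen` of both parts; `p n = p 0`), so `‖qq k‖ ≤ L/(2σ)`.
-/

namespace Pool.Agent.Helper38.IS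

open Finset Real Pool.Agent.Helper98.LC Pool.Agent.Helper38.LC2

variable {p : ℕ → ℂ} {n : ℕ} {L σ : ℝ}

private theorem plen_mono' (p : ℕ → ℂ) {a b : ℕ} (hab : a ≤ b) : plen p a ≤ plen p b := by
  unfold plen
  exact Finset.sum_le_sum_of_subset_of_nonneg (Finset.range_mono hab) fun _ _ _ => norm_nonneg _

private theorem An_mono (p : ℕ → ℂ) (hL : 0 < L) {a b : ℕ} (hab : a ≤ b) :
    An p L a ≤ An p L b := by
  have h := plen_mono' p hab
  have hpi := Real.pi_pos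
  unfold An
  gcongr

private theorem tel (f : ℕ → ℂ) {a k : ℕ} (hak : a ≤ k) :
    ‖f k - f a‖ ≤ ∑ j ∈ Ico a k, ‖f (j + 1) - f j‖ := by
  induction k, hak using Nat.le_induction with
  | base => simp
  | succ k hk ih =>
    rw [Finset.sum_Ico_succ_top hk]
    have e : f (k + 1) - f a = (f k - f a) + (f (k + 1) - f k) := by ring
    rw [e]
    exact (norm_add_le _ _).trans (by linarith)

private theorem an_sum (p : ℕ → ℂ) (L : ℝ) {a k : ℕ} (hak : a ≤ k) :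
    ∑ j ∈ Ico a k, an p L j = An p L k - An p L a := by
  induction k, hak using Nat.le_induction with
  | base => simp
  | succ k hk ih =>
    rw [Finset.sum_Ico_succ_top hk, ih, An_succ]
    ring

theorem vari (hn : p n = p 0) (hL : 0 < L) (hLn : plen p n = L) {a b k : ℕ} (hak : a ≤ k)
    (hkb : k ≤ b) (hbn : b ≤ n) (ha : 0 < An p L a) (hb : An p L b < π) (hσ : 0 < σ)
    (hs : ∀ j, a ≤ j → j ≤ b → σ ≤ Real.sin (An p L j)) :
    ‖qq p L k - qq p L a‖ ^ 2 ≤ π * (L ^ 2 / π - 4 * parea p n) / σ ^ 2 := by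
  have hpi := Real.pi_pos
  have hk : An p L k < π := lt_of_le_of_lt (An_mono p hL hkb) hb
  have htot := total hn hL hLn hak (hkb.trans hbn) ha hk
  have hpos : ∀ j ∈ Ico a k, 0 < An p L j ∧ An p L (j + 1) < π := by
    intro j hj
    rw [mem_Ico] at hj
    exact ⟨lt_of_lt_of_le ha (An_mono p hL hj.1), lt_of_le_of_lt (An_mono p hL hj.2) hk⟩
  have hsl : ∀ j ∈ Ico a k, 0 ≤ sl p L j := fun j hj =>
    sl_nonneg hL (hpos j hj).1 (hpos j hj).2
  have han : ∀ j ∈ Ico a k, 0 ≤ an p L j := by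
    intro j _
    unfold an
    positivity
  have hstep : ∀ j ∈ Ico a k, (σ * ‖qq p L (j + 1) - qq p L j‖) ^ 2 ≤ an p L j * sl p L j := by
    intro j hj
    have h1 := step_le hL (hpos j hj).1 (hpos j hj).2
    rw [mem_Ico] at hj
    have s0 := hs j hj.1 (by omega)
    have s1 := hs (j + 1) (by omega) (by omega)
    refine le_trans ?_ h1
    rw [mul_pow]
    refine mul_le_mul_of_nonneg_right ?_ (by positivity)
    rw [sq]
    exact mul_le_mul s0 s1 hσ.le (hσ.le.trans s0)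
  have hcs : (∑ j ∈ Ico a k, σ * ‖qq p L (j + 1) - qq p L j‖) ^ 2 ≤
      (∑ j ∈ Ico a k, an p L j) * ∑ j ∈ Ico a k, sl p L j := by
    have h1 : ∀ j ∈ Ico a k, σ * ‖qq p L (j + 1) - qq p L j‖ ≤ √(an p L j) * √(sl p L j) := by
      intro j hj
      rw [← Real.sqrt_mul (han j hj)]
      exact Real.le_sqrt_of_sq_le (hstep j hj)
    have h2 : ∑ j ∈ Ico a k, σ * ‖qq p L (j + 1) - qq p L j‖ ≤
        ∑ j ∈ Ico a k, √(an p L j) * √(sl p L j) := sum_le_sum h1
    have h3 := Finset.sum_mul_sq_le_sq_mul_sq (Ico a k) (fun j => √(an p L j))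
      (fun j => √(sl p L j))
    have h4 : ∑ j ∈ Ico a k, √(an p L j) ^ 2 = ∑ j ∈ Ico a k, an p L j :=
      sum_congr rfl fun j hj => Real.sq_sqrt (han j hj)
    have h5 : ∑ j ∈ Ico a k, √(sl p L j) ^ 2 = ∑ j ∈ Ico a k, sl p L j :=
      sum_congr rfl fun j hj => Real.sq_sqrt (hsl j hj)
    rw [h4, h5] at h3
    refine le_trans ?_ h3
    exact pow_le_pow_left₀ (sum_nonneg fun j _ => by positivity) h2 2
  have hsum : (∑ j ∈ Ico a k, an p L j) * ∑ j ∈ Ico a k, sl p L j ≤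
      π * (L ^ 2 / π - 4 * parea p n) := by
    refine mul_le_mul ?_ htot (sum_nonneg hsl) hpi.le
    rw [an_sum p L hak]
    linarith
  have htel := tel (qq p L) hak
  rw [le_div_iff₀ (by positivity)]
  calc ‖qq p L k - qq p L a‖ ^ 2 * σ ^ 2 ≤
        (∑ j ∈ Ico a k, ‖qq p L (j + 1) - qq p L j‖) ^ 2 * σ ^ 2 := by gcongr
    _ = (∑ j ∈ Ico a k, σ * ‖qq p L (j + 1) - qq p L j‖) ^ 2 := by
        rw [← mul_sum, mul_pow]
        ring
    _ ≤ _ := hcs.trans hsum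

theorem half_len (hn : p n = p 0) (hLn : plen p n = L) {k : ℕ} (hk : k ≤ n) :
    ‖p k - p 0‖ ≤ L / 2 ∧ ‖p k - p 0‖ ≤ plen p k ∧ ‖p k - p 0‖ ≤ L - plen p k := by
  have h1 : ‖p k - p 0‖ ≤ plen p k := by
    have h := tel p (Nat.zero_le k)
    rw [← Finset.range_eq_Ico] at h
    exact h
  have h2 : ‖p k - p 0‖ ≤ L - plen p k := by
    have h := tel p hk
    rw [hn, norm_sub_rev] at h
    have h3 : plen p k + ∑ j ∈ Ico k n, ‖p (j + 1) - p j‖ = plen p n :=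
      Finset.sum_range_add_sum_Ico (fun j => ‖p (j + 1) - p j‖) hk
    rw [hLn] at h3
    linarith
  exact ⟨by linarith, h1, h2⟩

theorem qq_le (hn : p n = p 0) (hL : 0 < L) (hLn : plen p n = L) {k : ℕ} (hk : k ≤ n) (hσ : 0 < σ)
    (hs : σ ≤ Real.sin (An p L k)) : ‖qq p L k‖ ≤ L / (2 * σ) := by
  have h1 := (half_len hn hLn hk).1
  have h2 : ‖Complex.exp (-(Complex.I * (An p L k : ℂ)))‖ = 1 := by
    rw [Complex.norm_exp]
    simp
  have hsin : 0 < Real.sin (An p L k) := lt_of_lt_of_le hσ hs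
  rw [qq, norm_div, norm_mul, h2, mul_one, Complex.norm_real, Real.norm_eq_abs,
    abs_of_pos hsin]
  calc ‖p k - p 0‖ / Real.sin (An p L k) ≤ (L / 2) / σ := by
        refine div_le_div₀ (by positivity) h1 hσ hs
    _ = L / (2 * σ) := by rw [div_div]

end Pool.Agent.Helper38.IS
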